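import Pool.Agent.Lib.MP_1a91b9_nuY.TP.Pts

/-!
# TP: the `ℓ`-part of the Tate-Shafarevich group of the twist is trivial
-/

set_option autoImplicit false
set_option linter.unusedSectionVars false

namespace Pool.Agent.Lib.MP_1a91b9_nuY.TP

open NumberField IsDedekindDomain WeierstrassCurve Pool.Agent.Lib.MP_1a91b9_nuT
open Pool.Agent.Lib.MP_1a91b9_nuX Pool.Agent.Lib.MP_1a91b9_nuX.DB Pool.Agent.Lib.MP_1a91b9_nuX.DX
open Pool.Agent.Lib.MP_1a91b9_nuW.W
open Pool.Agent.Lib.MP_1a91b9_nuY.TS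
open Pool.Agent.Lib.MP_1a91b9_nuT.S9 (Pts)
open Pool.Agent.Lib.MP_1a91b9_nuT.S5
open Pool.Agent.Lib.MP_1a91b9_nuT3.S9 (ShaP)
open scoped Classical

variable [CD]

universe u

variable [HC]

section
variable {F G : Type u} [Field F] [NumberField F] [Algebra K F] [Field G] [NumberField G]
  [Algebra K G] [Algebra F G] [IsScalarTower K F G] [IsGalois F G] {k : Gal(G/F) → 𝓞 K}
  {b ϖ : 𝓞 K} {ℓ q : ℕ} {Ψ : Ideal (𝓞 F) → 𝓞 K}
  {W : WeierstrassCurve F} {C₀ : VariableChange G} (hC : C₀ • W.baseChange G = E G)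
  (j : AlgebraicClosure F ≃ₐ[F] AlgebraicClosure G)

/-- an automorphism of the algebraic closure of `G` over `F` as an element of the Galois group -/
noncomputable def rj (σ : AlgebraicClosure G ≃ₐ[F] AlgebraicClosure G) : S9.Gal F :=
  (j.trans σ).trans j.symm

theorem rj_mul (σ τ : AlgebraicClosure G ≃ₐ[F] AlgebraicClosure G) :
    rj j (σ * τ) = rj j σ * rj j τ := by
  ext x
  change j.symm (σ (τ (j x))) = j.symm (σ (j (j.symm (τ (j x)))))
  rw [j.apply_symm_apply]

/-- the twisted cocycle of a cocycle of `W` -/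
noncomputable def cO (C : S9.Gal F → Pts W (AlgebraicClosure F))
    (σ : AlgebraicClosure G ≃ₐ[F] AlgebraicClosure G) : Pt (AlgebraicClosure G) :=
  io hC (Affine.Point.map (j : AlgebraicClosure F →ₐ[F] AlgebraicClosure G) (C (rj j σ)))

theorem io_key (hL : Lnk hC k) (σ : AlgebraicClosure G ≃ₐ[F] AlgebraicClosure G)
    (Q : Pts W (AlgebraicClosure F)) :
    io hC (Affine.Point.map (j : AlgebraicClosure F →ₐ[F] AlgebraicClosure G)
      (Affine.Point.map ((rj j σ : S9.Gal F) : AlgebraicClosure F →ₐ[F] AlgebraicClosure F) Q)) =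
    gO k σ (io hC (Affine.Point.map (j : AlgebraicClosure F →ₐ[F] AlgebraicClosure G) Q)) := by
  have e1 : (j : AlgebraicClosure F →ₐ[F] AlgebraicClosure G).comp
      ((rj j σ : S9.Gal F) : AlgebraicClosure F →ₐ[F] AlgebraicClosure F) =
      (σ : AlgebraicClosure G →ₐ[F] AlgebraicClosure G).comp
        (j : AlgebraicClosure F →ₐ[F] AlgebraicClosure G) := by
    ext x
    change j (j.symm (σ (j x))) = σ (j x)
    rw [j.apply_symm_apply]
  rw [← hL, Affine.Point.map_map, Affine.Point.map_map, e1]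

theorem cO_tw (hL : Lnk hC k) {C : S9.Gal F → Pts W (AlgebraicClosure F)}
    (hc : C ∈ S9.shaCoc W) : TwC k (cO hC j C) := by
  have hFG : FiniteDimensional F G := Module.Finite.of_restrictScalars_finite ℚ F G
  have halg : Algebra.IsAlgebraic F G := Algebra.IsAlgebraic.of_finite F G
  have hcc : C ∈ S9.coc W := hc.1.1
  refine ⟨fun σ τ => ?_, CT.res hC j C, ?_, fun σ => rfl⟩
  · unfold cO
    rw [rj_mul, hcc.2, _root_.map_add, _root_.map_add, io_key hC j hL]
  · have h1 : CT.res hC j C ∈ S9.coc (E G) := CT.res_coc hC j C hcc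
    have h3 : ∀ w : HeightOneSpectrum (𝓞 G),
        CT.res hC j C ∈ S9.trivOver (E G) (w.adicCompletion G) := by
      intro w
      obtain ⟨φ, hφ, -⟩ := S9.exists_compMap F w
      have : CharZero ((below F w).adicCompletion F) :=
        charZero_of_injective_algebraMap (algebraMap F ((below F w).adicCompletion F)).injective
      let _ : Algebra ((below F w).adicCompletion F) (w.adicCompletion G) := φ.toAlgebra
      let _ : Algebra F (w.adicCompletion G) :=
        ((algebraMap G (w.adicCompletion G)).comp (algebraMap F G)).toAlgebra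
      have : IsScalarTower F ((below F w).adicCompletion F) (w.adicCompletion G) :=
        IsScalarTower.of_algebraMap_eq fun x => (hφ x).symm
      have : IsScalarTower F G (w.adicCompletion G) :=
        IsScalarTower.of_algebraMap_eq fun x => rfl
      have hcv : C ∈ S9.trivOver W ((below F w).adicCompletion F) := by
        have h : C ∈ ⨅ v : HeightOneSpectrum (𝓞 F), S9.trivOver W (v.adicCompletion F) := hc.1.2
        exact AddSubgroup.mem_iInf.1 h (below F w)
      exact CT.res_triv hC j C hcv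
    exact ⟨⟨h1, AddSubgroup.mem_iInf.2 h3⟩, AddSubgroup.mem_iInf.2 fun v =>
      PL.triv_inf (E G) _ (PL.coc_one (E G) _ h1) v⟩

theorem cO_cob (hL : Lnk hC k) {C : S9.Gal F → Pts W (AlgebraicClosure F)}
    (hc : C ∈ S9.cob W) : TwB k (cO hC j C) := by
  obtain ⟨P, hP⟩ := hc
  refine ⟨io hC (Affine.Point.map (j : AlgebraicClosure F →ₐ[F] AlgebraicClosure G) P),
    fun σ => ?_⟩
  unfold cO
  rw [hP, _root_.map_sub, _root_.map_sub, io_key hC j hL]

theorem cob_cO (hL : Lnk hC k) {C : S9.Gal F → Pts W (AlgebraicClosure F)}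
    (hc : TwB k (cO hC j C)) : C ∈ S9.cob W := by
  obtain ⟨S, hS⟩ := hc
  have hinj : Function.Injective (Affine.Point.map (W' := W)
    (j : AlgebraicClosure F →ₐ[F] AlgebraicClosure G)) := Affine.Point.map_injective _
  obtain ⟨P, hP⟩ : ∃ P : Pts W (AlgebraicClosure F),
      Affine.Point.map (j : AlgebraicClosure F →ₐ[F] AlgebraicClosure G) P = (io hC).symm S := by
    refine ⟨Affine.Point.map (j.symm : AlgebraicClosure G →ₐ[F] AlgebraicClosure F)
      ((io hC).symm S), ?_⟩
    rw [Affine.Point.map_map]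
    have e4 : (j : AlgebraicClosure F →ₐ[F] AlgebraicClosure G).comp
        (j.symm : AlgebraicClosure G →ₐ[F] AlgebraicClosure F) = AlgHom.id F _ := by
      ext x
      exact j.apply_symm_apply x
    have e5 : ∀ Q : Pts W (AlgebraicClosure G),
        Affine.Point.map (AlgHom.id F (AlgebraicClosure G)) Q = Q := by
      intro Q
      rcases Q with _ | ⟨x, y, h⟩ <;> rfl
    rw [e4, e5]
  refine ⟨P, fun τ => ?_⟩
  obtain ⟨σ, rfl⟩ : ∃ σ, rj j σ = τ := by
    refine ⟨(j.symm.trans τ).trans j, ?_⟩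
    ext x
    change j.symm (j (τ (j.symm (j x)))) = τ x
    rw [j.symm_apply_apply, j.symm_apply_apply]
  apply hinj
  apply (io hC).injective
  rw [_root_.map_sub, _root_.map_sub, io_key hC j hL, hP, AddEquiv.apply_symm_apply]
  exact hS σ

/-- **The `ℓ`-part of the Tate-Shafarevich group of `W` is trivial.** -/
theorem top_sha [Fact ℓ.Prime] (h : PD ϖ ℓ q) (A : AWK F G k b ϖ ℓ Ψ)
    (A' : AWK F G k b (cj ϖ) ℓ Ψ) (hL : Lnk hC k) : Subsingleton (ShaP ℓ W) := by
  have hFG : FiniteDimensional F G := Module.Finite.of_restrictScalars_finite ℚ F G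
  have halg : Algebra.IsAlgebraic F G := Algebra.IsAlgebraic.of_finite F G
  have hcl : IsAlgClosure F (AlgebraicClosure G) :=
    IsAlgClosure.ofAlgebraic F G (AlgebraicClosure G)
  obtain ⟨j⟩ : Nonempty (AlgebraicClosure F ≃ₐ[F] AlgebraicClosure G) :=
    ⟨IsAlgClosure.equiv F (AlgebraicClosure F) (AlgebraicClosure G)⟩
  have key : ∀ n : ℕ, ∀ y : S9.shaCoc W ⧸ (S9.cob W).addSubgroupOf (S9.shaCoc W),
      ℓ ^ n • y = 0 → y = 0 := by
    intro n y hy
    obtain ⟨⟨c, hc⟩, rfl⟩ := QuotientAddGroup.mk_surjective y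
    rw [← QuotientAddGroup.mk_nsmul, QuotientAddGroup.eq_zero_iff,
      AddSubgroup.mem_addSubgroupOf] at hy
    rw [QuotientAddGroup.eq_zero_iff, AddSubgroup.mem_addSubgroupOf]
    have hy' : ℓ ^ n • c ∈ S9.cob W := hy
    refine cob_cO hC j hL (twc_ell_pow h A A' n (cO_tw hC j hL hc) ?_)
    have h1 : cO hC j (ℓ ^ n • c) = ℓ ^ n • cO hC j c := by
      funext σ
      change io hC (Affine.Point.map (j : AlgebraicClosure F →ₐ[F] AlgebraicClosure G)
        (ℓ ^ n • c (rj j σ))) = ℓ ^ n • io hC (Affine.Point.map _ (c (rj j σ)))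
      rw [_root_.map_nsmul, _root_.map_nsmul]
    rw [← h1]
    exact cO_cob hC j hL hy'
  have h1 : ∀ x : AddCommGroup.primaryComponent (S9.Sha W) ℓ, x = 0 := by
    rintro ⟨x, n, hn⟩
    exact Subtype.ext (key n x hn)
  exact ⟨fun x y => (h1 x).trans (h1 y).symm⟩

end

end Pool.Agent.Lib.MP_1a91b9_nuY.TP
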