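import Pool.Agent.Lib.MP_1a91b9_nuX.QW.Defs
import Pool.Agent.Lib.MP_1a91b9_nuX.HU.Unit
import Pool.Agent.Lib.MP_1a91b9_nuY.TP.Sha

/-!
# TP: the top of the twisted base

`topK`: the package `AWK` for `ϖ` and `cj ϖ` implies that the twist has finitely many points, their
number is prime to `ℓ`, and that the `ℓ`-part of the Tate-Shafarevich group is trivial.
-/

set_option autoImplicit false
set_option linter.unusedSectionVars false

namespace Pool.Agent.Lib.MP_1a91b9_nuY.TP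

open NumberField IsDedekindDomain WeierstrassCurve Pool.Agent.Lib.MP_1a91b9_nuT
open Pool.Agent.Lib.MP_1a91b9_nuX Pool.Agent.Lib.MP_1a91b9_nuX.DB Pool.Agent.Lib.MP_1a91b9_nuX.DX
open Pool.Agent.Lib.MP_1a91b9_nuW.W
open Pool.Agent.Lib.MP_1a91b9_nuY.TS
open Pool.Agent.Lib.MP_1a91b9_nuX.QW (ScD)
open Pool.Agent.Lib.MP_1a91b9_nuT.Per (cv)
open Pool.Agent.Lib.MP_1a91b9_nuT.S9 (Pts)
open Pool.Agent.Lib.MP_1a91b9_nuT3.S9 (ShaP)
open scoped Classical

variable [CD]

universe u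

variable [HC]

private theorem top_emb (G : Type u) [Field G] [NumberField G] [Algebra K G] :
    Nonempty (AlgebraicClosure G →ₐ[K] ℂ) := by
  have h1 : Algebra.IsAlgebraic K G := Algebra.IsAlgebraic.tower_top (K := ℚ) K
  have h2 : Algebra.IsAlgebraic K (AlgebraicClosure G) := Algebra.IsAlgebraic.trans K G _
  exact ⟨IsAlgClosed.lift⟩

section
variable {F G : Type u} [Field F] [NumberField F] [Algebra K F] [Field G] [NumberField G]
  [Algebra K G] [Algebra F G] [IsScalarTower K F G] [IsGalois F G]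

/-- the change of variables of a form -/
noncomputable def chg {u : G} (hu : u ≠ 0) : VariableChange G := ⟨Units.mk0 u hu, 0, 0, 0⟩

/-- the form becomes isomorphic to `E` -/
theorem chg_eq {α β : F} {u : G} (hu : u ≠ 0)
    (ha : algebraMap F G α = (CD.A : G) * u ^ 4) (hb : algebraMap F G β = (CD.B : G) * u ^ 6) :
    chg hu • (cv α β).baseChange G = E G := by
  ext
  · simp [chg, cv, E, WeierstrassCurve.variableChange_a₁]
  · simp [chg, cv, E, WeierstrassCurve.variableChange_a₂]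
  · simp [chg, cv, E, WeierstrassCurve.variableChange_a₃]
  · simp [chg, cv, E, WeierstrassCurve.variableChange_a₄, ha]
    field_simp
  · simp [chg, cv, E, WeierstrassCurve.variableChange_a₆, hb]
    field_simp

/-- the transport in coordinates -/
theorem io_symm {α β : F} {u : G} (hu : u ≠ 0)
    (hC : chg hu • (cv α β).baseChange G = E G) (x y : AlgebraicClosure G)
    (h : y ^ 2 = x ^ 3 + cA _ * x + cB _) : ∃ h', (io hC).symm (mkPt x y h) =
      Affine.Point.some (algebraMap G (AlgebraicClosure G) u ^ 2 * x)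
        (algebraMap G (AlgebraicClosure G) u ^ 3 * y) h' := by
  have h1 : (DH.tr G (AlgebraicClosure G)).symm (mkPt x y h) =
      Affine.Point.some x y ((DH.bc_eq G (AlgebraicClosure G)) ▸ (nons_iff x y).2 h) := by
    rw [AddEquiv.symm_apply_eq, DH.tr, DH.castP_some]
    rfl
  have h2 : (io hC).symm (mkPt x y h) = CT.tr hC (AlgebraicClosure G)
      ((DH.tr G (AlgebraicClosure G)).symm (mkPt x y h)) := rfl
  rw [h2, h1]
  obtain ⟨h3, e3⟩ := (CT.exists_tr (cv α β) (E G) (chg hu) hC (AlgebraicClosure G)).choose_spec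
    x y ((DH.bc_eq G (AlgebraicClosure G)) ▸ (nons_iff x y).2 h)
  have e4 : CT.tr hC (AlgebraicClosure G) (Affine.Point.some x y
    ((DH.bc_eq G (AlgebraicClosure G)) ▸ (nons_iff x y).2 h)) = _ := e3
  have e5 : algebraMap G (AlgebraicClosure G) (chg hu).u ^ 2 * x +
      algebraMap G (AlgebraicClosure G) (chg hu).r =
      algebraMap G (AlgebraicClosure G) u ^ 2 * x := by
    simp [chg]
  have e6 : algebraMap G (AlgebraicClosure G) (chg hu).u ^ 3 * y +
      algebraMap G (AlgebraicClosure G) (chg hu).u ^ 2 *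
        algebraMap G (AlgebraicClosure G) (chg hu).s * x +
      algebraMap G (AlgebraicClosure G) (chg hu).t =
      algebraMap G (AlgebraicClosure G) u ^ 3 * y := by
    simp [chg]
  have h5 := h3
  rw [e5, e6] at h5
  refine ⟨h5, ?_⟩
  rw [e4, Affine.Point.some.injEq]
  exact ⟨e5, e6⟩

/-- the form is the twist by the inverse of `θ` -/
theorem lnk_of {α β : F} {u : G} {θ : Gal(G/F) →* (𝓞 K)ˣ} {k : Gal(G/F) → 𝓞 K} (hk : Kap F G k)
    (hs : ScD α β u θ) (hθ : ∀ s, k s = (((θ s)⁻¹ : (𝓞 K)ˣ) : 𝓞 K))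
    (hC : chg hs.ne • (cv α β).baseChange G = E G) : Lnk hC k := by
  intro σ Q
  obtain ⟨P, rfl⟩ := (io hC).symm.surjective Q
  rw [AddEquiv.apply_symm_apply]
  apply (io hC).symm.injective
  rw [AddEquiv.symm_apply_apply]
  rcases cases_pt P with rfl | ⟨x, y, h, rfl⟩
  · rw [gO_zero, map_zero, map_zero]
  · have hne : gO k σ (mkPt x y h) ≠ 0 := by
      intro h0
      apply mk_ne_zero x y h
      have h1 : gO k σ⁻¹ (gO k σ (mkPt x y h)) = mkPt x y h := by
        rw [← gO_mul hk, inv_mul_cancel, gO_one hk]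
      rw [← h1, h0, gO_zero]
    obtain ⟨f⟩ := top_emb G
    have hu := HU.sm_unit f ((θ (σ.restrictNormal G))⁻¹) (ga σ (mkPt x y h))
    have hxg : xc (ga σ (mkPt x y h)) = σ x := xc_ga σ _
    have hyg : yc (ga σ (mkPt x y h)) = σ y := yc_ga σ _
    rw [hxg, hyg, ← hθ, ← gO_apply] at hu
    obtain ⟨h', e'⟩ := exists_mk hne
    obtain ⟨x', hx'⟩ : ∃ x', x' = xc (gO k σ (mkPt x y h)) := ⟨_, rfl⟩
    obtain ⟨y', hy'⟩ : ∃ y', y' = yc (gO k σ (mkPt x y h)) := ⟨_, rfl⟩
    rw [← hx', ← hy'] at hu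
    have h2 : y' ^ 2 = x' ^ 3 + cA _ * x' + cB _ := by
      rw [hx', hy']
      exact h'
    have e2 : gO k σ (mkPt x y h) = mkPt x' y' h2 := by
      rw [e', mk_inj]
      exact ⟨hx'.symm, hy'.symm⟩
    rw [e2]
    obtain ⟨h3, e3⟩ := io_symm hs.ne hC x y h
    obtain ⟨h4, e4⟩ := io_symm hs.ne hC x' y' h2
    rw [e3, e4, Affine.Point.map_some, Affine.Point.some.injEq]
    obtain ⟨U, hU⟩ : ∃ U, U = algebraMap G (AlgebraicClosure G) u := ⟨_, rfl⟩
    obtain ⟨t, ht⟩ : ∃ t, t = algebraMap K (AlgebraicClosure G)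
      ((((θ (σ.restrictNormal G)) : (𝓞 K)ˣ) : 𝓞 K) : K) := ⟨_, rfl⟩
    obtain ⟨t', ht'⟩ : ∃ t', t' = algebraMap K (AlgebraicClosure G)
      ((k (σ.restrictNormal G) : 𝓞 K) : K) := ⟨_, rfl⟩
    have htt : t' * t = 1 := by
      rw [ht, ht', hθ, ← map_mul, ← map_mul (algebraMap (𝓞 K) K), Units.inv_mul, map_one, map_one]
    have hσU : σ U = t * U := by
      have h5 := congrArg (algebraMap G (AlgebraicClosure G)) (hs.th (σ.restrictNormal G))
      rw [AlgEquiv.restrictNormal_commutes, map_mul, ← IsScalarTower.algebraMap_apply K G] at h5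
      rw [hU, ht]
      exact h5
    rw [← hU]
    rw [← ht'] at hu
    obtain ⟨hu1, hu2⟩ := hu
    have h6 : (σ : AlgebraicClosure G →ₐ[F] AlgebraicClosure G) (U ^ 2 * x) = σ (U ^ 2 * x) := rfl
    have h7 : (σ : AlgebraicClosure G →ₐ[F] AlgebraicClosure G) (U ^ 3 * y) = σ (U ^ 3 * y) := rfl
    rw [h6, h7, map_mul, map_mul, map_pow, map_pow, hσU, ← hu1, ← hu2]
    constructor
    · linear_combination U ^ 2 * x' * (t' * t + 1) * htt
    · linear_combination U ^ 3 * y' * ((t' * t) ^ 2 + t' * t + 1) * htt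

/-- **The top of the twisted base.** -/
theorem topK {α β : F} {u : G} {θ : Gal(G/F) →* (𝓞 K)ˣ} {k : Gal(G/F) → 𝓞 K}
    (hs : ScD α β u θ) (hθ : ∀ s, k s = (((θ s)⁻¹ : (𝓞 K)ˣ) : 𝓞 K)) {b ϖ : 𝓞 K} {ℓ q : ℕ}
    [Fact ℓ.Prime] (h : PD ϖ ℓ q) {Ψ : Ideal (𝓞 F) → 𝓞 K} (A : AWK F G k b ϖ ℓ Ψ)
    (A' : AWK F G k b (cj ϖ) ℓ Ψ) :
    Finite (cv α β).toAffine.Point ∧ (Nat.card (cv α β).toAffine.Point).Coprime ℓ ∧
      Subsingleton (ShaP ℓ (cv α β)) := by
  have hC : chg hs.ne • (cv α β).baseChange G = E G := chg_eq hs.ne hs.ha hs.hb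
  have hL := lnk_of A.kap hs hθ hC
  obtain ⟨h1, h2⟩ := top_pts hC h A A' hL
  exact ⟨h1, h2, top_sha hC h A A' hL⟩

end

end Pool.Agent.Lib.MP_1a91b9_nuY.TP
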