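import Pool.Agent.Lib.MP_1a91b9_nuX.DH.Defs
import Pool.Agent.Lib.MP_1a91b9_nuY.TS.Defs

/-!
# TP: the twisted action, elementary properties
-/

set_option autoImplicit false

namespace Pool.Agent.Lib.MP_1a91b9_nuY.TP

variable [Pool.Agent.Lib.MP_1a91b9_nuT.CD]

open NumberField IsDedekindDomain WeierstrassCurve Pool.Agent.Lib.MP_1a91b9_nuT
open Pool.Agent.Lib.MP_1a91b9_nuX Pool.Agent.Lib.MP_1a91b9_nuX.DB Pool.Agent.Lib.MP_1a91b9_nuX.DX
open Pool.Agent.Lib.MP_1a91b9_nuY.TS (Kap gk IsoK)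

universe u

section
variable {F : Type u} (G : Type u) {L : Type u} [Field F] [NumberField F] [Algebra K F] [Field G]
  [NumberField G] [Algebra K G] [Field L] [NumberField L] [Algebra K L] [Algebra F G] [Algebra F L]
  [Algebra G L] [IsScalarTower K F G] [IsScalarTower K F L] [IsScalarTower K G L]
  [IsScalarTower F G L] [IsGalois F G] [DecidableEq L] (k : Gal(G/F) → 𝓞 K)

theorem gk_apply (g : Gal(L/F)) (P : Pt L) : gk G k g P = sm L (k (rs G g)) (ga g P) := rfl

theorem sm_sm (a b : 𝓞 K) (Q : Pt L) : sm L a (sm L b Q) = sm L (a * b) Q := by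
  rw [map_mul]
  rfl

theorem gk_sm (g : Gal(L/F)) (c : 𝓞 K) (P : Pt L) :
    gk G k g (sm L c P) = sm L c (gk G k g P) := by
  rw [gk_apply, gk_apply, ga_sm, sm_sm, sm_sm, mul_comm]

theorem gk_add (g : Gal(L/F)) (P Q : Pt L) : gk G k g (P + Q) = gk G k g P + gk G k g Q := by
  rw [gk_apply, gk_apply, gk_apply, map_add, map_add]

theorem gk_zero (g : Gal(L/F)) : gk G k g (0 : Pt L) = 0 := by
  rw [gk_apply, map_zero, map_zero]

theorem gk_neg (g : Gal(L/F)) (P : Pt L) : gk G k g (-P) = -gk G k g P := by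
  rw [gk_apply, gk_apply, map_neg, map_neg]

theorem gk_sub (g : Gal(L/F)) (P Q : Pt L) : gk G k g (P - Q) = gk G k g P - gk G k g Q := by
  rw [gk_apply, gk_apply, gk_apply, map_sub, map_sub]

/-- the twisted action as an additive map -/
noncomputable def gkH (g : Gal(L/F)) : Pt L →+ Pt L :=
  AddMonoidHom.mk' (gk G k g) (gk_add G k g)

theorem gkH_apply (g : Gal(L/F)) (P : Pt L) : gkH G k g P = gk G k g P := rfl

/-- an automorphism acts on a torsion point by multiplication -/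
theorem gk_ord {β : 𝓞 K} (hβ : β ≠ 0) {R : Pt L} (hR : Ord β R) (g : Gal(L/F)) :
    ∃ c : 𝓞 K, gk G k g R = sm L c R := by
  obtain ⟨c, -, hc⟩ := gal_sm (k := F) hβ hR g
  refine ⟨k (rs G g) * c, ?_⟩
  rw [gk_apply, hc, sm_sm]

end

section
variable {F G L : Type u} [Field F] [NumberField F] [Algebra K F] [Field G]
  [NumberField G] [Algebra K G] [Field L] [NumberField L] [Algebra K L] [Algebra F G] [Algebra F L]
  [Algebra G L] [IsScalarTower K F G] [IsScalarTower K F L] [IsScalarTower K G L]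
  [IsScalarTower F G L] [IsGalois F G] [DecidableEq L] {k : Gal(G/F) → 𝓞 K} (hk : Kap F G k)
include hk

theorem gk_toF (g : Gal(L/G)) (P : Pt L) : gk G k (toF F g) P = ga g P := by
  rw [gk_apply, rs_toF, hk.one, map_one, ga_toF]
  rfl

theorem gk_mul (g h : Gal(L/F)) (P : Pt L) : gk G k (g * h) P = gk G k g (gk G k h P) := by
  rw [gk_apply, gk_apply, gk_apply, rs_mul, hk.mul, ga_mul, ga_sm, sm_sm]

theorem gk_one (P : Pt L) : gk G k (1 : Gal(L/F)) P = P := by
  have h1 : rs G (1 : Gal(L/F)) = 1 := by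
    apply AlgEquiv.ext
    intro x
    apply (algebraMap G L).injective
    rw [rs_apply]
    rfl
  rw [gk_apply, h1, hk.one, map_one, ga_one]
  rfl

theorem gk_inv_cancel (g : Gal(L/F)) (P : Pt L) : gk G k g (gk G k g⁻¹ P) = P := by
  rw [← gk_mul hk, mul_inv_cancel, gk_one hk]

theorem isoK_iso {ℓ : ℕ} {P : Pt L} {y : Lˣ} (h : IsoK G k ℓ P y) : Iso G ℓ P y := by
  obtain ⟨A, hA⟩ := h
  refine ⟨A, fun σ c hc => ?_⟩
  have h1 := hA (toF F σ) c (by rw [gk_toF hk, hc])
  rw [← h1]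
  rfl

end

end Pool.Agent.Lib.MP_1a91b9_nuY.TP
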