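import Pool.Agent.Lib.MP_1a91b9_nuX.DX.Chi

/-!
# TP: the action on the `ℓ`-th roots of unity for arbitrary torsion points

Let `R` be a point of `L` with annihilator `(ϖ)`, `R₂` a point with annihilator `(cj ϖ)` and `ζ` a primitive
`ℓ`-th root of unity in `L`. If `g : Gal(L/F)` acts on `R`, `R₂`, `ζ` as multiplication by `d`, `c` and by raising to the
power `x` then `x = c cj d` modulo `cj ϖ`. (Copy of nuX/DH/Chi without the fields `N`, `N₂`.)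
-/

set_option autoImplicit false

namespace Pool.Agent.Lib.MP_1a91b9_nuY.TP

variable [Pool.Agent.Lib.MP_1a91b9_nuT.CD]

open NumberField IsDedekindDomain WeierstrassCurve Pool.Agent.Lib.MP_1a91b9_nuT Pool.Agent.Lib.MP_1a91b9_nt
open Pool.Agent.Lib.MP_1a91b9_nuX Pool.Agent.Lib.MP_1a91b9_nuX.DB Pool.Agent.Lib.MP_1a91b9_nuX.DX

universe u

variable [HC]

private theorem chc_zeta {L : Type*} [Field L] {ζ : L} {ℓ : ℕ} (hζ : IsPrimitiveRoot ζ ℓ)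
    (hl : ℓ ≠ 0) {x y : ℕ} (h : ζ ^ x = ζ ^ y) : (ℓ : ℤ) ∣ (x : ℤ) - y := by
  have h0 : ζ ≠ 0 := hζ.ne_zero hl
  rcases le_total x y with hxy | hxy
  · obtain ⟨k, rfl⟩ := Nat.exists_eq_add_of_le hxy
    rw [pow_add] at h
    have h1 : ζ ^ k = 1 := (mul_right_eq_self₀.1 h.symm).resolve_right (pow_ne_zero _ h0)
    have h2 : (ℓ : ℤ) ∣ (k : ℤ) := Int.natCast_dvd_natCast.2 (hζ.dvd_of_pow_eq_one k h1)
    push_cast
    rw [sub_add_cancel_left, dvd_neg]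
    exact h2
  · obtain ⟨k, rfl⟩ := Nat.exists_eq_add_of_le hxy
    rw [pow_add] at h
    have h1 : ζ ^ k = 1 := (mul_right_eq_self₀.1 h).resolve_right (pow_ne_zero _ h0)
    have h2 : (ℓ : ℤ) ∣ (k : ℤ) := Int.natCast_dvd_natCast.2 (hζ.dvd_of_pow_eq_one k h1)
    push_cast
    rw [add_sub_cancel_left]
    exact h2

/-- the classes of an automorphism -/
private def ChDat {F L : Type u} [Field F] [Field L] [Algebra K F] [Algebra K L] [Algebra F L]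
    [IsScalarTower K F L] [DecidableEq L] (R R₂ : Pt L) (ζ : L) (g : Gal(L/F)) (c d : 𝓞 K)
    (x : ℕ) : Prop :=
  ga g R = sm L d R ∧ ga g R₂ = sm L c R₂ ∧ g ζ = ζ ^ x

section
variable {F L : Type u} [Field F] [NumberField F] [Algebra K F] [Field L] [NumberField L]
  [Algebra K L] [Algebra F L] [IsScalarTower K F L] [IsGalois F L] [DecidableEq L]
  {ϖ : 𝓞 K} {ℓ q : ℕ} {R R₂ : Pt L} {ζ : L}

private theorem chc_one : ChDat R R₂ ζ (1 : Gal(L/F)) 1 1 1 := by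
  refine ⟨?_, ?_, ?_⟩
  · rw [ga_one, map_one]
    rfl
  · rw [ga_one, map_one]
    rfl
  · rw [pow_one]
    rfl

private theorem chc_mul {g g' : Gal(L/F)} {c d c' d' : 𝓞 K} {x x' : ℕ}
    (h : ChDat R R₂ ζ g c d x) (h' : ChDat R R₂ ζ g' c' d' x') :
    ChDat R R₂ ζ (g * g') (c' * c) (d' * d) (x * x') := by
  refine ⟨?_, ?_, ?_⟩
  · rw [ga_mul, h'.1, ga_sm, h.1, map_mul]
    rfl
  · rw [ga_mul, h'.2.1, ga_sm, h.2.1, map_mul]
    rfl
  · rw [AlgEquiv.mul_apply, h'.2.2, map_pow, h.2.2, pow_mul]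

variable (hp : PD ϖ ℓ q) (hR : Ord ϖ R) (hR₂ : Ord (cj ϖ) R₂) (hζ : IsPrimitiveRoot ζ ℓ)
include hp hR hR₂ hζ

private theorem chc_frob {v : HeightOneSpectrum (𝓞 F)}
    (h3 : v.valuation F (bD F) = 1) (hl : v.valuation F (ℓ : F) = 1)
    {W : HeightOneSpectrum (𝓞 L)} (hW : W.under (𝓞 F) = v) {φ : Gal(L/F)} (hφ : CF.IsFr v W φ)
    {c d : 𝓞 K} {x : ℕ} (h : ChDat R R₂ ζ φ c d x) : cj ϖ ∣ (x : 𝓞 K) - c * cj d := by
  obtain ⟨hd, hc, hx⟩ := h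
  subst hW
  have hpd2 := pd_cj hp
  have hWb : W.valuation L (bD L) = 1 := by
    have h1 : algebraMap F L (bD F) = bD L := map_intCast _ _
    rw [← h1, val_map_eq]
    exact h3
  obtain ⟨β, hβ⟩ : ∃ β, β = psi F (W.under (𝓞 F)).asIdeal := ⟨_, rfl⟩
  have hWl : W.valuation L (ℓ : L) = 1 := by
    have h1 : algebraMap F L (ℓ : F) = (ℓ : L) := map_natCast _ _
    rw [← h1, val_map_eq]
    exact hl
  have hWq : W.valuation L (q : L) = 1 := by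
    rcases hp.alt with h | h
    · rw [h]
      exact hWl
    · rw [h, Nat.cast_pow, map_pow, hWl, one_pow]
  have hφ' : ∀ x : 𝓞 L, φ • x - x ^ nrm (W.under (𝓞 F)) ∈ W.asIdeal := hφ
  have hq1 : q • R = 0 := by
    rw [← sm_nat, hR, ← pd_mul_cj hp]
    exact dvd_mul_right _ _
  have hq2 : q • R₂ = 0 := by
    rw [← sm_nat, hR₂, ← pd_mul_cj hp]
    exact dvd_mul_left _ _
  have hφ'' : ∀ x : 𝓞 L, φ • x - x ^ (Ideal.absNorm (W.under (𝓞 F)).asIdeal) ∈ W.asIdeal := by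
    rw [← nrm_eq]
    exact hφ'
  have hf1 := frob_psi W hWb φ hφ'' hWq hq1
  have hf2 := frob_psi W hWb φ hφ'' hWq hq2
  rw [← hβ] at hf1 hf2
  have hdβ : ϖ ∣ d - β := (Ord.sm_eq_iff hR d β).1 (hd.symm.trans hf1)
  have hcβ : cj ϖ ∣ c - β := (Ord.sm_eq_iff hR₂ c β).1 (hc.symm.trans hf2)
  have hlW : (ℓ : 𝓞 L) ∉ W.asIdeal := by
    intro h
    have h1 : W.valuation L (algebraMap (𝓞 L) L (ℓ : 𝓞 L)) < 1 :=
      (W.valuation_lt_one_iff_mem (K := L) (ℓ : 𝓞 L)).2 h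
    rw [map_natCast] at h1
    exact absurd hWl h1.ne
  have hζp := CF.IsFr.zeta hφ rfl ℓ hlW ζ hζ.pow_eq_one
  have hζ0 : ζ ≠ 0 := hζ.ne_zero hp.hl.ne_zero
  have hlx : (ℓ : ℤ) ∣ (x : ℤ) - (nrm (W.under (𝓞 F)) : ℤ) := by
    rw [← hζ.zpow_eq_one_iff_dvd, zpow_sub₀ hζ0, zpow_natCast, zpow_natCast, ← hx, ← hζp]
    exact div_self (by rw [hx]; exact pow_ne_zero _ hζ0)
  have hxp : cj ϖ ∣ (x : 𝓞 K) - (nrm (W.under (𝓞 F)) : 𝓞 K) := by
    obtain ⟨m, hm⟩ := hlx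
    have h1 : (x : 𝓞 K) - (nrm (W.under (𝓞 F)) : 𝓞 K) = (ℓ : 𝓞 K) * (m : 𝓞 K) := by
      have h2 := congrArg (Int.cast : ℤ → 𝓞 K) hm
      push_cast at h2
      exact h2
    rw [h1]
    exact Dvd.dvd.mul_right hpd2.dvd _
  have hpβ : (nrm (W.under (𝓞 F)) : 𝓞 K) = β * cj β := by
    rw [hβ, psi_mul_cj _ h3, nrm_eq]
  have hcd : cj ϖ ∣ cj (d - β) := cj_dvd_iff.2 hdβ
  have e : (x : 𝓞 K) - c * cj d = ((x : 𝓞 K) - (nrm (W.under (𝓞 F)) : 𝓞 K)) -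
      (c - β) * cj β - c * cj (d - β) := by
    rw [map_sub, hpβ]
    ring
  rw [e]
  exact dvd_sub (dvd_sub hxp (Dvd.dvd.mul_right hcβ _)) (Dvd.dvd.mul_left hcd _)

private theorem chc_uniq {g : Gal(L/F)} {c d c' d' : 𝓞 K} {x x' : ℕ}
    (h : ChDat R R₂ ζ g c d x) (h' : ChDat R R₂ ζ g c' d' x') :
    cj ϖ ∣ ((x : 𝓞 K) - c * cj d) - ((x' : 𝓞 K) - c' * cj d') := by
  have h1 : ϖ ∣ d - d' := hR.sm_eq_iff d d' |>.1 (h.1.symm.trans h'.1)
  have h2 : cj ϖ ∣ c - c' := hR₂.sm_eq_iff c c' |>.1 (h.2.1.symm.trans h'.2.1)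
  have h3 : (ℓ : ℤ) ∣ (x : ℤ) - x' := chc_zeta hζ hp.hl.ne_zero (h.2.2.symm.trans h'.2.2)
  have h4 : cj ϖ ∣ (((x : ℤ) - x' : ℤ) : 𝓞 K) := ((pd_cj hp).dvd_int_iff _).2 h3
  have h5 : cj ϖ ∣ cj d - cj d' := by
    rw [← map_sub]
    exact cj_dvd_iff.2 h1
  have e : ((x : 𝓞 K) - c * cj d) - ((x' : 𝓞 K) - c' * cj d') =
      (((x : ℤ) - x' : ℤ) : 𝓞 K) - ((c - c') * cj d + c' * (cj d - cj d')) := by
    push_cast
    ring
  rw [e]
  exact dvd_sub h4 (dvd_add (Dvd.dvd.mul_right h2 _) (Dvd.dvd.mul_left h5 _))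

private theorem chc_ex (g : Gal(L/F)) : ∃ (c d : 𝓞 K) (x : ℕ), ChDat R R₂ ζ g c d x ∧
    ¬ cj ϖ ∣ c ∧ ¬ cj ϖ ∣ cj d := by
  obtain ⟨d, hd0, hd⟩ := gal_sm (k := F) hp.prime.ne_zero hR g
  obtain ⟨c, hc0, hc⟩ := gal_sm (k := F) (pd_cj hp).prime.ne_zero hR₂ g
  obtain ⟨x, hx⟩ : ∃ x : ℕ, g ζ = ζ ^ x := by
    have h1 : (g ζ) ^ ℓ = 1 := by
      rw [← map_pow, hζ.pow_eq_one, map_one]
    have : NeZero ℓ := ⟨hp.hl.ne_zero⟩
    obtain ⟨i, _, hi⟩ := hζ.eq_pow_of_pow_eq_one h1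
    exact ⟨i, hi.symm⟩
  refine ⟨c, d, x, ⟨hd, hc, hx⟩, fun h => ?_, fun h => ?_⟩
  · exact (pd_cj hp).prime.not_isUnit (hc0.isUnit_of_dvd' h dvd_rfl)
  · exact hp.prime.not_isUnit (hd0.isUnit_of_dvd' (cj_dvd_iff.1 h) dvd_rfl)

private theorem chc_iff {g : Gal(L/F)} {c d c' d' : 𝓞 K} {x x' : ℕ}
    (h : ChDat R R₂ ζ g c d x) (h' : ChDat R R₂ ζ g c' d' x')
    (h1 : cj ϖ ∣ (x : 𝓞 K) - c * cj d) : cj ϖ ∣ (x' : 𝓞 K) - c' * cj d' := by
  have h2 := chc_uniq hp hR hR₂ hζ h h'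
  have h3 := dvd_sub h1 h2
  rwa [sub_sub_cancel] at h3

/-- products of inverse classes -/
private theorem chc_inv {g : Gal(L/F)} {c d c' d' : 𝓞 K} {x x' : ℕ}
    (h : ChDat R R₂ ζ g c d x) (h' : ChDat R R₂ ζ g⁻¹ c' d' x') :
    cj ϖ ∣ (x : 𝓞 K) * x' - (c * cj d) * (c' * cj d') := by
  have h1 := chc_mul (F := F) (L := L) h h'
  rw [mul_inv_cancel] at h1
  have h2 := chc_iff hp hR hR₂ hζ (chc_one (F := F) (L := L) (R := R) (R₂ := R₂) (ζ := ζ)) h1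
    (by simp)
  have e : ((x * x' : ℕ) : 𝓞 K) - c' * c * cj (d' * d) =
      (x : 𝓞 K) * x' - (c * cj d) * (c' * cj d') := by
    push_cast
    rw [map_mul]
    ring
  rwa [e] at h2

/-- the subgroup of the automorphisms satisfying the formula -/
private theorem chc_group : ∃ H : Subgroup Gal(L/F), H.Normal ∧ ∀ g, g ∈ H ↔
    ∀ (c d : 𝓞 K) (x : ℕ), ChDat R R₂ ζ g c d x → cj ϖ ∣ (x : 𝓞 K) - c * cj d := by
  have hpr : Prime (cj ϖ) := (pd_cj hp).prime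
  let H : Subgroup Gal(L/F) :=
    { carrier := {g | ∀ (c d : 𝓞 K) (x : ℕ), ChDat R R₂ ζ g c d x →
        cj ϖ ∣ (x : 𝓞 K) - c * cj d}
      one_mem' := by
        intro c d x h
        exact chc_iff hp hR hR₂ hζ (chc_one (F := F) (L := L) (R := R) (R₂ := R₂) (ζ := ζ)) h
          (by simp)
      mul_mem' := by
        intro g g' hg hg' c d x h
        obtain ⟨a, b, y, h1, -, -⟩ := chc_ex hp hR hR₂ hζ g
        obtain ⟨a', b', y', h1', -, -⟩ := chc_ex hp hR hR₂ hζ g'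
        refine chc_iff hp hR hR₂ hζ (chc_mul (F := F) (L := L) h1 h1') h ?_
        have h2 := hg a b y h1
        have h2' := hg' a' b' y' h1'
        have e : ((y * y' : ℕ) : 𝓞 K) - a' * a * cj (b' * b) =
            ((y : 𝓞 K) - a * cj b) * y' + (a * cj b) * ((y' : 𝓞 K) - a' * cj b') := by
          push_cast
          rw [map_mul]
          ring
        rw [e]
        exact dvd_add (Dvd.dvd.mul_right h2 _) (Dvd.dvd.mul_left h2' _)
      inv_mem' := by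
        intro g hg c' d' x' h'
        obtain ⟨a, b, y, h1, ha, hb⟩ := chc_ex hp hR hR₂ hζ g
        have h2 := hg a b y h1
        have h3 := chc_inv hp hR hR₂ hζ h1 h'
        have h4 : cj ϖ ∣ (a * cj b) * ((x' : 𝓞 K) - c' * cj d') := by
          have e : (a * cj b) * ((x' : 𝓞 K) - c' * cj d') =
              ((y : 𝓞 K) * x' - (a * cj b) * (c' * cj d')) - ((y : 𝓞 K) - a * cj b) * x' := by
            ring
          rw [e]
          exact dvd_sub h3 (Dvd.dvd.mul_right h2 _)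
        rcases hpr.dvd_or_dvd h4 with h5 | h5
        · rcases hpr.dvd_or_dvd h5 with h6 | h6
          · exact absurd h6 ha
          · exact absurd h6 hb
        · exact h5 }
  refine ⟨H, ⟨?_⟩, fun g => Iff.rfl⟩
  intro g hg h c d x hcd
  obtain ⟨a, b, y, h1, -, -⟩ := chc_ex hp hR hR₂ hζ g
  obtain ⟨a', b', y', h1', -, -⟩ := chc_ex hp hR hR₂ hζ h
  obtain ⟨a'', b'', y'', h1'', -, -⟩ := chc_ex hp hR hR₂ hζ h⁻¹
  refine chc_iff hp hR hR₂ hζ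
    (chc_mul (F := F) (L := L) (chc_mul (F := F) (L := L) h1' h1) h1'') hcd ?_
  have h2 : cj ϖ ∣ (y : 𝓞 K) - a * cj b := hg a b y h1
  have h3 := chc_inv hp hR hR₂ hζ h1' h1''
  have e : ((y' * y * y'' : ℕ) : 𝓞 K) - a'' * (a * a') * cj (b'' * (b * b')) =
      ((y' : 𝓞 K) * y'' - (a' * cj b') * (a'' * cj b'')) * y +
        ((a' * cj b') * (a'' * cj b'')) * ((y : 𝓞 K) - a * cj b) := by
    push_cast
    rw [map_mul, map_mul]
    ring
  rw [e]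
  exact dvd_add (Dvd.dvd.mul_right h3 _) (Dvd.dvd.mul_left h2 _)

/-- **The action on the roots of unity** -/
theorem chi_pt (g : Gal(L/F)) {c d : 𝓞 K} {x : ℕ} (hd : ga g R = sm L d R)
    (hc : ga g R₂ = sm L c R₂) (hx : g ζ = ζ ^ x) :
    cj ϖ ∣ (x : 𝓞 K) - c * cj d := by
  obtain ⟨H, hN, hH⟩ := chc_group (F := F) hp hR hR₂ hζ
  have h3 : (bD F) ≠ 0 := bD_ne
  have hchar : CharZero F := charZero_of_injective_algebraMap (algebraMap K F).injective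
  have hl : (ℓ : F) ≠ 0 := by exact_mod_cast hp.hl.ne_zero
  have hfin := (od_finite (F := F) h3).union (od_finite (F := F) hl)
  have htop : H = ⊤ := by
    refine top_of_frob H hfin ?_
    intro v hv _ W hW φ hφ
    have hv3 : od v (bD F) = 0 := by
      by_contra hne
      exact hv (Or.inl hne)
    have hvl : od v (ℓ : F) = 0 := by
      by_contra hne
      exact hv (Or.inr hne)
    rw [hH]
    intro c d x h
    exact chc_frob hp hR hR₂ hζ ((val_eq_one_iff v h3).2 hv3) ((val_eq_one_iff v hl).2 hvl) hW hφ h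
  have hg : g ∈ H := by
    rw [htop]
    exact Subgroup.mem_top g
  exact (hH g).1 hg c d x ⟨hd, hc, hx⟩

end

end Pool.Agent.Lib.MP_1a91b9_nuY.TP
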