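import Pool.Agent.Lib.MP_1a91b9_nuX.DY.Main

/-!
# TP: the Kummer class of a locally trivial cocycle, without a condition at the places above the discriminant
-/

set_option autoImplicit false
set_option linter.unusedSectionVars false

namespace Pool.Agent.Lib.MP_1a91b9_nuY.TP

variable [Pool.Agent.Lib.MP_1a91b9_nuT.CD]

open NumberField IsDedekindDomain WeierstrassCurve Pool.Agent.Lib.MP_1a91b9_nuT
open Pool.Agent.Lib.MP_1a91b9_nuX
open Pool.Agent.Lib.MP_1a91b9_nuX.DB Pool.Agent.Lib.MP_1a91b9_nuX.DX Pool.Agent.Lib.MP_1a91b9_nuX.DY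

universe u

variable [HC]

open Pool.Agent.Lib.MP_1a91b9_nuX.DH (TC LocSol smF)

section
open scoped Classical
variable {F N N₂ L : Type u} [Field F] [NumberField F] [Algebra K F] [Field N] [NumberField N]
  [Algebra K N] [Field N₂] [NumberField N₂] [Algebra K N₂] [Field L] [NumberField L] [Algebra K L]
  [Algebra F N] [Algebra F N₂] [Algebra F L] [Algebra N L] [Algebra N₂ L]
  [IsScalarTower K F N] [IsScalarTower K F N₂] [IsScalarTower K F L] [IsScalarTower K N L]
  [IsScalarTower K N₂ L] [IsScalarTower F N L] [IsScalarTower F N₂ L]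
  [IsGalois F N] [IsGalois F N₂] [IsGalois F L]

  {ϖ : 𝓞 K} {ℓ q : ℕ} {P₀ : Pt N} {P₂ : Pt N₂} {ζ : L} {κ : Gal(L/F) → Pt L}
  (D : TC ϖ ℓ q P₀ P₂ ζ κ)
include D

private theorem tc_vv0
    (hun : ∀ v : HeightOneSpectrum (𝓞 F), v.valuation F (ℓ : F) < 1 → od v (ℓ : F) = 1)
    (hloc : ∀ W : HeightOneSpectrum (𝓞 L), LocSol κ W)
    {φ : 𝓞 K →+ ZMod ℓ} (hφ : φ ≠ 0) {y : Nˣ} {α : L}
    (hK : MP_1a91b9_nuX.DH.KC F ϖ ℓ P₀ P₂ ζ κ φ y α)
    (hbd : ∀ w : HeightOneSpectrum (𝓞 N), w.valuation N (bD N) < 1 → (ℓ : ℤ) ∣ od w (y : N)) :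
    VV F ϖ ℓ P₀ y := by
  have iG : IsGalois N L := IsGalois.tower_top_of_isGalois F N L
  have h := D.pd
  have hod : ∀ w : HeightOneSpectrum (𝓞 N), (ℓ : ℤ) ∣ od w (y : N) := by
    intro w
    by_cases hw : w.valuation N (bD N) = 1 ∧ w.valuation N (algebraMap K N (cj ϖ : K)) = 1
    · obtain ⟨W, rfl⟩ := CF.exists_over (k := N) (N := L) w
      have h3' : W.valuation L (bD L) = 1 := by
        have e := (val_map_eq W (bD N)).2 hw.1
        rwa [bD, map_intCast] at e
      have hc' : W.valuation L (algebraMap K L (cj ϖ : K)) = 1 := by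
        have e := (val_map_eq W (algebraMap K N (cj ϖ : K))).2 hw.2
        rwa [← IsScalarTower.algebraMap_apply K N L] at e
      exact dvd_od hK.pow W (D.unram W h3' hc' (hloc W))
    · rcases not_and_or.1 hw with h1 | h1
      · exact hbd w (lt_of_le_of_ne (v_int_le (w.valuation N) _) h1)
      · have hlt : w.valuation N (algebraMap K N (cj ϖ : K)) < 1 :=
          lt_of_le_of_ne (v_alg_le (w.valuation N) _) h1
        rcases pd_cases h with ⟨-, hcop⟩ | ⟨hq, hi⟩
        · exact tc_od D hcop hun hloc hφ hK w hlt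
        · have hlt' : w.valuation N (algebraMap K N (ϖ : K)) < 1 := by
            rw [hi] at hlt
            exact hlt
          obtain ⟨-, -, hg⟩ := ram_N h hun D.full w hlt'
          have hcard := Full.card h D.full
          have hl2 : 2 ≤ ℓ := h.hl.two_le
          have h4 : 4 ≤ q := by
            rw [hq]
            nlinarith
          have hn : 1 < Nat.card Gal(N/F) := by
            rw [IsGalois.card_aut_eq_finrank F N]
            omega
          have := Finite.one_lt_card_iff_nontrivial.1 hn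
          obtain ⟨σ, hσ1⟩ := exists_ne (1 : Gal(N/F))
          exact Iso.od_fix h D.full hK.iso (hg σ) hσ1
  refine ⟨hod, hK.iso, ?_⟩
  intro w hw
  rcases pd_cases h with ⟨-, hcop⟩ | ⟨hq, hi⟩
  · have hn : ¬ ϖ ∣ cj ϖ := fun e => h.prime.not_isUnit (hcop.isUnit_of_dvd' dvd_rfl e)
    have h1 := pd_val_coprime h hw hn
    have h2 := h.bad_pi hw
    obtain ⟨W, rfl⟩ := CF.exists_over (k := N) (N := L) w
    have h3' : W.valuation L (bD L) = 1 := by
      have e := (val_map_eq W (bD N)).2 h2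
      rwa [bD, map_intCast] at e
    have hc' : W.valuation L (algebraMap K L (cj ϖ : K)) = 1 := by
      have e := (val_map_eq W (algebraMap K N (cj ϖ : K))).2 h1
      rwa [← IsScalarTower.algebraMap_apply K N L] at e
    have hw' : W.valuation L (algebraMap K L (ϖ : K)) < 1 := by
      have e := (val_map_lt W (algebraMap K N (ϖ : K))).2 hw
      rwa [← IsScalarTower.algebraMap_apply K N L] at e
    exact wloc_unram h y.ne_zero hK.pow W (D.unram W h3' hc' (hloc W)) hw'
  · obtain ⟨ht, hl, -⟩ := ram_N h hun D.full w hw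
    have hv : (w.under (𝓞 F)).valuation F (algebraMap K F (ϖ : K)) < 1 := by
      rw [← val_map_lt, ← IsScalarTower.algebraMap_apply K F N]
      exact hw
    refine D.wloc_inert hi hq hφ hK hloc w hw ht ?_ (hod w)
    rw [hl, hq]
    push_cast
    ring

end

section
variable {F N N₂ L : Type u} [Field F] [NumberField F] [Algebra K F] [Field N] [NumberField N]
  [Algebra K N] [Field N₂] [NumberField N₂] [Algebra K N₂] [Field L] [NumberField L] [Algebra K L]
  [Algebra F N] [Algebra F N₂] [Algebra F L] [Algebra N L] [Algebra N₂ L]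
  [IsScalarTower K F N] [IsScalarTower K F N₂] [IsScalarTower K F L] [IsScalarTower K N L]
  [IsScalarTower K N₂ L] [IsScalarTower F N L] [IsScalarTower F N₂ L]
  [IsGalois F N] [IsGalois F N₂] [IsGalois F L]
  [iN : DecidableEq N] [iN₂ : DecidableEq N₂] [iL : DecidableEq L]
  {ϖ : 𝓞 K} {ℓ q : ℕ} {P₀ : Pt N} {P₂ : Pt N₂} {ζ : L} {κ : Gal(L/F) → Pt L}

/-- the Kummer class is in the Selmer group if its orders at the places above the discriminant are divisible by `ℓ` -/
theorem tc_vvK (D : TC ϖ ℓ q P₀ P₂ ζ κ)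
    (hun : ∀ v : HeightOneSpectrum (𝓞 F), v.valuation F (ℓ : F) < 1 → od v (ℓ : F) = 1)
    (hloc : ∀ W : HeightOneSpectrum (𝓞 L), LocSol κ W)
    {φ : 𝓞 K →+ ZMod ℓ} (hφ : φ ≠ 0) {y : Nˣ} {α : L}
    (hK : MP_1a91b9_nuX.DH.KC F ϖ ℓ P₀ P₂ ζ κ φ y α)
    (hbd : ∀ w : HeightOneSpectrum (𝓞 N), w.valuation N (bD N) < 1 → (ℓ : ℤ) ∣ od w (y : N)) :
    VV F ϖ ℓ P₀ y := by
  have e1 : iN = fun a b => Classical.propDecidable (a = b) := Subsingleton.elim _ _
  have e2 : iN₂ = fun a b => Classical.propDecidable (a = b) := Subsingleton.elim _ _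
  have e3 : iL = fun a b => Classical.propDecidable (a = b) := Subsingleton.elim _ _
  subst e1
  subst e2
  subst e3
  exact tc_vv0 D hun hloc hφ hK hbd

end

end Pool.Agent.Lib.MP_1a91b9_nuY.TP
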