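import Pool.Agent.Lib.MP_1a91b9_nuY.TP.Pl
import Pool.Agent.Lib.MP_1a91b9_nuY.TP.Vv
import Pool.Agent.Lib.MP_1a91b9_nuY.TS.Iso

/-!
# TP: the twisted locally trivial cocycles with values in the points killed by `cj ϖ` are coboundaries
-/

set_option autoImplicit false
set_option linter.unusedSectionVars false

namespace Pool.Agent.Lib.MP_1a91b9_nuY.TP

open NumberField IsDedekindDomain WeierstrassCurve Pool.Agent.Lib.MP_1a91b9_nuT
open Pool.Agent.Lib.MP_1a91b9_nuX Pool.Agent.Lib.MP_1a91b9_nuX.DB Pool.Agent.Lib.MP_1a91b9_nuX.DX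
open Pool.Agent.Lib.MP_1a91b9_nuX.DH (TC KC LocSol)
open Pool.Agent.Lib.MP_1a91b9_nuX.DS Pool.Agent.Lib.MP_1a91b9_nuX.DY
open Pool.Agent.Lib.MP_1a91b9_nuW.W Pool.Agent.Lib.MP_1a91b9_nuW.DS
open Pool.Agent.Lib.MP_1a91b9_nuW.DY (tc_od')
open Pool.Agent.Lib.MP_1a91b9_nuY.TS

variable [CD]

universe u

variable [HC]

section
variable {F G : Type u} [Field F] [NumberField F] [Algebra K F] [Field G] [NumberField G]
  [Algebra K G] [Algebra F G] [IsScalarTower K F G] [IsGalois F G] {k : Gal(G/F) → 𝓞 K}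
  {b ϖ : 𝓞 K} {ℓ : ℕ} {Ψ : Ideal (𝓞 F) → 𝓞 K}

/-- the places above `ℓ` are prime to `b` -/
theorem val_b (A : AWK F G k b ϖ ℓ Ψ) {L : Type u} [Field L] [NumberField L] [Algebra K L]
    (W : HeightOneSpectrum (𝓞 L)) (hW : W.valuation L (ℓ : L) < 1) :
    W.valuation L (algebraMap K L (b : K)) = 1 := by
  obtain ⟨x, y, hxy⟩ := A.bl
  have h1 : algebraMap K L (x : K) * algebraMap K L (b : K) +
      algebraMap K L (y : K) * (ℓ : L) = 1 := by
    have h2 := congrArg (fun z : 𝓞 K => algebraMap K L (z : K)) hxy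
    simpa using h2
  refine le_antisymm (v_alg_le _ _) ?_
  by_contra hlt
  rw [not_le] at hlt
  have h3 : W.valuation L (algebraMap K L (x : K) * algebraMap K L (b : K)) < 1 := by
    rw [map_mul]
    calc W.valuation L (algebraMap K L (x : K)) * W.valuation L (algebraMap K L (b : K)) ≤
        1 * W.valuation L (algebraMap K L (b : K)) := by
          gcongr
          exact v_alg_le _ _
      _ < 1 := by rwa [one_mul]
  have h4 : W.valuation L (algebraMap K L (y : K) * (ℓ : L)) < 1 := by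
    rw [map_mul]
    calc W.valuation L (algebraMap K L (y : K)) * W.valuation L (ℓ : L) ≤
        1 * W.valuation L (ℓ : L) := by
          gcongr
          exact v_alg_le _ _
      _ < 1 := by rwa [one_mul]
  have h5 := (W.valuation L).map_add_lt h3 h4
  rw [h1, map_one] at h5
  exact lt_irrefl _ h5

end

section
variable {F G N : Type u} [Field F] [NumberField F] [Algebra K F] [Field G] [NumberField G]
  [Algebra K G] [Algebra F G] [IsScalarTower K F G] [IsGalois F G] [Field N] [NumberField N]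
  [Algebra K N] [Algebra F N] [Algebra G N] [IsScalarTower K F N] [IsScalarTower K G N]
  [IsScalarTower F G N] [IsGalois F N] [IsGalois G N] [DecidableEq N] {k : Gal(G/F) → 𝓞 K}
  {b ϖ : 𝓞 K} {ℓ q : ℕ} {Ψ : Ideal (𝓞 F) → 𝓞 K}

/-- the places above the discriminant -/
theorem od_bad (A : AWK F G k b ϖ ℓ Ψ) (h : PD ϖ ℓ q) {P : Pt N} (hP : Full G ϖ P) {y : Nˣ}
    (hI : IsoK G k ℓ P y) (w : HeightOneSpectrum (𝓞 N)) (hw : w.valuation N (bD N) < 1) :
    (ℓ : ℤ) ∣ od w (y : N) := by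
  obtain ⟨c, hc⟩ := A.bad
  have e : algebraMap K N (b : K) = bD N * algebraMap K N (c : K) := by
    rw [hc, ← bO_map, ← map_mul]
    rfl
  obtain ⟨s, hs1, hs⟩ := A.dt N P hP w (by
    rw [e, map_mul]
    calc w.valuation N (bD N) * w.valuation N (algebraMap K N (c : K)) ≤
        w.valuation N (bD N) * 1 := by
          gcongr
          exact v_alg_le (w.valuation N) c
      _ < 1 := by rwa [mul_one])
  exact IsoK.od_dt A.kap h hP hI hs1 hs

end

section
variable {F G N N₂ L : Type u} [Field F] [NumberField F] [Algebra K F] [Field G]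
  [NumberField G] [Algebra K G] [Field N] [NumberField N] [Algebra K N] [Field N₂]
  [NumberField N₂] [Algebra K N₂] [Field L] [NumberField L] [Algebra K L] [Algebra F G]
  [Algebra F L] [Algebra G N] [Algebra G N₂] [Algebra G L] [Algebra N L] [Algebra N₂ L]
  [IsScalarTower K F G] [IsScalarTower K F L] [IsScalarTower K G N] [IsScalarTower K G N₂]
  [IsScalarTower K G L] [IsScalarTower K N L] [IsScalarTower K N₂ L] [IsScalarTower F G L]
  [IsScalarTower G N L] [IsScalarTower G N₂ L] [IsGalois F G] [IsGalois G N] [IsGalois G N₂]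
  [IsGalois G L] [DecidableEq G] [DecidableEq N] [DecidableEq N₂] [DecidableEq L]
  [Algebra F N] [IsScalarTower K F N] [IsScalarTower F G N] [IsScalarTower F N L]
  [IsGalois F N] [IsGalois F L]
  {k : Gal(G/F) → 𝓞 K} {ϖ : 𝓞 K} {ℓ q : ℕ}
  {P₀ : Pt N} {P₂ : Pt N₂} {ζ : L} {C : Gal(L/F) → Pt L}
  (D : TCK k ϖ ℓ q P₀ P₂ ζ C)
include D

/-- the Kummer class of a locally trivial cocycle is in the Selmer group (split case) -/
theorem TCK.vw {b : 𝓞 K} {Ψ : Ideal (𝓞 F) → 𝓞 K} (hcop : IsCoprime ϖ (cj ϖ))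
    (A : AWK F G k b ϖ ℓ Ψ)
    (hloc : ∀ W : HeightOneSpectrum (𝓞 L), LocSol (fun g : Gal(L/G) => C (toF F g)) W)
    {φ : 𝓞 K →+ ZMod ℓ} (hφ : φ ≠ 0) {y : Nˣ} {α : L}
    (hK : KC G ϖ ℓ P₀ P₂ ζ (fun g : Gal(L/G) => C (toF F g)) φ y α) (hI : IsoK G k ℓ P₀ y) :
    VW G ϖ ℓ P₀ y := by
  have iG : IsGalois N L := IsGalois.tower_top_of_isGalois F N L
  have h := D.tc.pd
  have hod : ∀ w : HeightOneSpectrum (𝓞 N), (ℓ : ℤ) ∣ od w (y : N) := by
    intro w
    by_cases hw : w.valuation N (bD N) = 1 ∧ w.valuation N (algebraMap K N (cj ϖ : K)) = 1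
    · obtain ⟨W, rfl⟩ := CF.exists_over (k := N) (N := L) w
      have h3' : W.valuation L (bD L) = 1 := by
        have e := (val_map_eq W (bD N)).2 hw.1
        rwa [bD, map_intCast] at e
      have hc' : W.valuation L (algebraMap K L (cj ϖ : K)) = 1 := by
        have e := (val_map_eq W (algebraMap K N (cj ϖ : K))).2 hw.2
        rwa [← IsScalarTower.algebraMap_apply K N L] at e
      exact dvd_od hK.pow W (D.tc.unram W h3' hc' (hloc W))
    · rcases not_and_or.1 hw with h1 | h1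
      · exact od_bad A h D.tc.full hI w (lt_of_le_of_ne (v_int_le (w.valuation N) _) h1)
      · have hlt : w.valuation N (algebraMap K N (cj ϖ : K)) < 1 :=
          lt_of_le_of_ne (v_alg_le (w.valuation N) _) h1
        exact tc_od' D.tc hcop hloc hφ hK w hlt
  have hn : ¬ ϖ ∣ cj ϖ := fun e => h.prime.not_isUnit (hcop.isUnit_of_dvd' dvd_rfl e)
  refine ⟨hod, hK.iso, fun w hw _ => ?_, fun w hw hv => ?_⟩
  · have h1 := pd_val_coprime h hw hn
    have h2 := h.bad_pi hw
    obtain ⟨W, rfl⟩ := CF.exists_over (k := N) (N := L) w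
    have h3' : W.valuation L (bD L) = 1 := by
      have e := (val_map_eq W (bD N)).2 h2
      rwa [bD, map_intCast] at e
    have hc' : W.valuation L (algebraMap K L (cj ϖ : K)) = 1 := by
      have e := (val_map_eq W (algebraMap K N (cj ϖ : K))).2 h1
      rwa [← IsScalarTower.algebraMap_apply K N L] at e
    have hw' : W.valuation L (algebraMap K L (ϖ : K)) < 1 := by
      have e := (val_map_lt W (algebraMap K N (ϖ : K))).2 hw
      rwa [← IsScalarTower.algebraMap_apply K N L] at e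
    exact wloc_unram h y.ne_zero hK.pow W (D.tc.unram W h3' hc' (hloc W)) hw'
  · have h1 := pd_val_coprime h hw hn
    have h2 := h.bad_pi hw
    have hvl : (w.under (𝓞 G)).valuation G (ℓ : G) < 1 := by
      rw [← val_map_lt, map_natCast, h.val_ell hw]
      exact hw
    have hvF : ((w.under (𝓞 G)).under (𝓞 F)).valuation F (ℓ : F) < 1 := by
      rw [← val_map_lt, map_natCast]
      exact hvl
    have hram := A.ur (w.under (𝓞 G)) (val_b A _ hvl)
    have hodF : od ((w.under (𝓞 G)).under (𝓞 F)) (ℓ : F) ≠ 1 := by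
      have e3 := od_ell F G ℓ (w.under (𝓞 G))
      rw [hram, Nat.cast_one, one_mul] at e3
      rw [← e3]
      exact hv
    have hna := A.na _ hvF hodF
    obtain ⟨W, rfl⟩ := CF.exists_over (k := N) (N := L) w
    have hWl : W.valuation L (ℓ : L) < 1 := by
      have e : algebraMap G L (ℓ : G) = (ℓ : L) := map_natCast _ _
      rw [← e, val_map_lt (k := G)]
      have e4 : (W.under (𝓞 N)).under (𝓞 G) = W.under (𝓞 G) := under_under W
      rw [← e4]
      exact hvl
    have h3' : W.valuation L (bD L) = 1 := by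
      have e := (val_map_eq W (bD N)).2 h2
      rwa [bD, map_intCast] at e
    have hc' : W.valuation L (algebraMap K L (cj ϖ : K)) = 1 := by
      have e := (val_map_eq W (algebraMap K N (cj ϖ : K))).2 h1
      rwa [← IsScalarTower.algebraMap_apply K N L] at e
    have e5 : ((W.under (𝓞 N)).under (𝓞 G)).under (𝓞 F) = W.under (𝓞 F) := by
      rw [under_under, under_under]
    rw [e5] at hna
    exact D.pl A.fr W h3' (val_b A W hWl) hc' (not_dvd_of_cop (pd_cj h) hna) (hloc W) hK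

/-- the Kummer class of a locally trivial twisted cocycle is an `ℓ`-th power -/
theorem TCK.pow {b : 𝓞 K} {Ψ : Ideal (𝓞 F) → 𝓞 K} (A : AWK F G k b ϖ ℓ Ψ)
    (hloc : ∀ W : HeightOneSpectrum (𝓞 L), LocSol (fun g : Gal(L/G) => C (toF F g)) W)
    {φ : 𝓞 K →+ ZMod ℓ} (hφ : φ ≠ 0) {y : Nˣ} {α : L}
    (hK : KC G ϖ ℓ P₀ P₂ ζ (fun g : Gal(L/G) => C (toF F g)) φ y α) (hI : IsoK G k ℓ P₀ y) :
    ∃ z : Nˣ, y = z ^ ℓ := by
  refine A.vt N P₀ D.tc.full y ⟨?_, hI⟩
  by_cases hcop : IsCoprime ϖ (cj ϖ)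
  · exact D.vw hcop A hloc hφ hK hI
  · have hU := A.un hcop
    have hy : VV G ϖ ℓ P₀ y := by
      exact tc_vvK D.tc hU hloc hφ hK (od_bad A D.tc.pd D.tc.full hI)
    refine ⟨hy.od, hy.iso, fun w hw _ => hy.loc w hw, fun w hw hne => ?_⟩
    refine absurd (hU (w.under (𝓞 G)) ?_) hne
    rw [← val_map_lt, map_natCast, D.tc.pd.val_ell hw]
    exact hw

/-- if the order of the group is prime to `ℓ` the cocycle is a coboundary -/
theorem TCK.cob_of_coprime (h : (Fintype.card Gal(L/F)).Coprime ℓ) :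
    ∃ S : Pt L, sm L (cj ϖ) S = 0 ∧ ∀ g : Gal(L/F), C g = gk G k g S - S := by
  obtain ⟨e, he⟩ := (pd_cj D.tc.pd).dvd
  have hb : (Fintype.card Gal(L/F) : ℤ) * Nat.gcdA (Fintype.card Gal(L/F)) ℓ +
      (ℓ : ℤ) * Nat.gcdB (Fintype.card Gal(L/F)) ℓ = 1 := by
    rw [← Nat.gcd_eq_gcd_ab, h, Nat.cast_one]
  have hl : ∀ g : Gal(L/F), (ℓ : ℤ) • C g = 0 := by
    intro g
    rw [← sm_int, Int.cast_natCast, he, mul_comm, map_mul]
    show sm L e (sm L (cj ϖ) (C g)) = 0
    rw [D.tor g, map_zero]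
  have hs : ∀ g : Gal(L/F), (Fintype.card Gal(L/F) : ℤ) • C g =
      (∑ h : Gal(L/F), C h) - gk G k g (∑ h : Gal(L/F), C h) := by
    intro g
    have h1 : ∑ h : Gal(L/F), C (g * h) = ∑ h : Gal(L/F), C h :=
      Fintype.sum_equiv (Equiv.mulLeft g) _ _ (fun h => rfl)
    have h2 : ∑ h : Gal(L/F), C (g * h) =
        (Fintype.card Gal(L/F) : ℤ) • C g + gk G k g (∑ h : Gal(L/F), C h) := by
      rw [Finset.sum_congr rfl (fun h _ => D.coc g h), Finset.sum_add_distrib,
        Finset.sum_const, Finset.card_univ, natCast_zsmul, ← gkH_apply, map_sum]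
      rfl
    rw [eq_sub_iff_add_eq, ← h2, h1]
  refine ⟨-(Nat.gcdA (Fintype.card Gal(L/F)) ℓ • ∑ h : Gal(L/F), C h), ?_, fun g => ?_⟩
  · rw [map_neg, map_zsmul, map_sum, Finset.sum_eq_zero (fun h _ => D.tor h), smul_zero, neg_zero]
  · have h2 : C g = Nat.gcdA (Fintype.card Gal(L/F)) ℓ • ((Fintype.card Gal(L/F) : ℤ) • C g) +
        Nat.gcdB (Fintype.card Gal(L/F)) ℓ • ((ℓ : ℤ) • C g) := by
      rw [smul_smul, smul_smul, ← add_smul, mul_comm _ (Fintype.card Gal(L/F) : ℤ),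
        mul_comm _ (ℓ : ℤ), hb, one_smul]
    rw [hl, smul_zero, add_zero, hs] at h2
    rw [← gkH_apply, map_neg, map_zsmul, gkH_apply, h2, smul_sub]
    abel

/-- **A locally trivial twisted cocycle with values in the points killed by `cj ϖ` is a coboundary.** -/
theorem TCK.cob {b : 𝓞 K} {Ψ : Ideal (𝓞 F) → 𝓞 K} (A : AWK F G k b ϖ ℓ Ψ)
    (hloc : ∀ W : HeightOneSpectrum (𝓞 L), LocSol (fun g : Gal(L/G) => C (toF F g)) W) :
    ∃ S : Pt L, sm L (cj ϖ) S = 0 ∧ ∀ g : Gal(L/F), C g = gk G k g S - S := by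
  classical
  obtain ⟨φ, hφ, hφ0⟩ := exists_phi D.tc.pd
  obtain ⟨y, α, hK, hI⟩ := D.exists_KC φ hφ0
  have hy := D.pow A hloc hφ hK hI
  have h1 := D.tc.card_coprime (fun g h0 h2 => D.tc.kap_zero hφ hK hy g h0 h2)
  refine D.cob_of_coprime ?_
  have f1 : FiniteDimensional F G := Module.Finite.of_restrictScalars_finite ℚ F G
  have f2 : FiniteDimensional G L := Module.Finite.of_restrictScalars_finite ℚ G L
  have f3 : FiniteDimensional F L := Module.Finite.of_restrictScalars_finite ℚ F L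
  have h2 : Fintype.card Gal(L/F) = Module.finrank F G * Fintype.card Gal(L/G) := by
    rw [← Nat.card_eq_fintype_card, ← Nat.card_eq_fintype_card, IsGalois.card_aut_eq_finrank,
      IsGalois.card_aut_eq_finrank, Module.finrank_mul_finrank]
  rw [h2]
  exact Nat.Coprime.mul_left A.deg h1

end

end Pool.Agent.Lib.MP_1a91b9_nuY.TP
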