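import Pool.Agent.Lib.MP_1a91b9_nuY.TP.Om

/-!
# TP: the finite level of a twisted cocycle
-/

set_option autoImplicit false
set_option linter.unusedSectionVars false

namespace Pool.Agent.Lib.MP_1a91b9_nuY.TP

open NumberField IsDedekindDomain WeierstrassCurve Pool.Agent.Lib.MP_1a91b9_nuT
open Pool.Agent.Lib.MP_1a91b9_nuX Pool.Agent.Lib.MP_1a91b9_nuX.DB Pool.Agent.Lib.MP_1a91b9_nuX.DX
open Pool.Agent.Lib.MP_1a91b9_nuX.DH (TC KC LocSol)
open Pool.Agent.Lib.MP_1a91b9_nuY.TS
open scoped Classical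

variable [CD]

universe u

variable [HC]

attribute [local instance] tower_FLO tower_KFL

private theorem fin_emb (G : Type u) [Field G] [NumberField G] [Algebra K G] :
    Nonempty (AlgebraicClosure G →ₐ[K] ℂ) := by
  have h1 : Algebra.IsAlgebraic K G := Algebra.IsAlgebraic.tower_top (K := ℚ) K
  have h2 : Algebra.IsAlgebraic K (AlgebraicClosure G) := Algebra.IsAlgebraic.trans K G _
  exact ⟨IsAlgClosed.lift⟩

private theorem fin_comm {A B B' D : Type*} [Field A] [Algebra K A] [Field B] [Algebra K B]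
    [Field B'] [Algebra K B'] [Field D] [Algebra K D] (a : B →ₐ[K] D) (b : A →ₐ[K] B)
    (c : B' →ₐ[K] D) (d : A →ₐ[K] B') (e : ∀ x, a (b x) = c (d x)) (P : Pt A) :
    pm a (pm b P) = pm c (pm d P) := by
  rcases cases_pt P with rfl | ⟨x, y, h, rfl⟩
  · rw [map_zero, map_zero, map_zero, map_zero]
  · obtain ⟨h1, e1⟩ := pm_mk b x y h
    obtain ⟨h2, e2⟩ := pm_mk d x y h
    obtain ⟨h3, e3⟩ := pm_mk a _ _ h1
    obtain ⟨h4, e4⟩ := pm_mk c _ _ h2
    rw [e1, e2, e3, e4, mk_inj]
    exact ⟨e x, e y⟩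

/-- transport of the twisted action to the algebraic closure -/
theorem fin_ga {F G : Type u} [Field F] [NumberField F] [Algebra K F] [Field G]
    [NumberField G] [Algebra K G] [Algebra F G] [IsScalarTower K F G]
    (L : IntermediateField G (AlgebraicClosure G)) [NumberField L] [IsGalois F L]
    (σ : AlgebraicClosure G ≃ₐ[F] AlgebraicClosure G) (Q : Pt L) :
    pm (L.val.restrictScalars K) (ga (σ.restrictNormal L) Q) =
      ga σ (pm (L.val.restrictScalars K) Q) := by
  refine fin_comm _ _ _ _ ?_ Q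
  intro x
  exact AlgEquiv.restrictNormal_commutes σ L x

section
variable {F G N N₂ : Type u} [Field F] [NumberField F] [Algebra K F] [Field G] [NumberField G]
  [Algebra K G] [Algebra F G] [IsScalarTower K F G] [IsGalois F G]
  [Field N] [NumberField N] [Algebra K N] [Algebra G N] [IsScalarTower K G N] [IsGalois G N]
  [Field N₂] [NumberField N₂] [Algebra K N₂] [Algebra G N₂] [IsScalarTower K G N₂]
  [IsGalois G N₂] {P₀ : Pt N} {P₂ : Pt N₂} {k : Gal(G/F) → 𝓞 K} (hk : Kap F G k) {ϖ : 𝓞 K}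
  {ℓ q : ℕ} {c : (AlgebraicClosure G ≃ₐ[F] AlgebraicClosure G) → Pt (AlgebraicClosure G)}
  (hc : ∀ σ τ, c (σ * τ) = c σ + gO k σ (c τ))
  (hc2 : ∀ σ, sm (AlgebraicClosure G) (cj ϖ) (c σ) = 0)
  (L : IntermediateField G (AlgebraicClosure G)) [NumberField L] [IsGalois G L] [Algebra N L]
  [Algebra N₂ L] [IsScalarTower K N L] [IsScalarTower K N₂ L] [IsScalarTower G N L]
  [IsScalarTower G N₂ L] {ζ : L} {κ : Gal(L/G) → Pt L} (D : TC ϖ ℓ q P₀ P₂ ζ κ)
  (hκ : ∀ τ : S9.Gal G, pm (L.val.restrictScalars K) (κ (τ.restrictNormal L)) =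
    c (τ.restrictScalars F))
include hk hc hc2 D hκ

omit hc2 in
private theorem fin_one : c 1 = 0 := by
  have h := hc 1 1
  rw [mul_one, gO_one hk] at h
  exact left_eq_add.mp h

omit hk hc hc2 in
private theorem fin_fix (τ : S9.Gal G) (h : ∀ x ∈ L, τ x = x) :
    c (τ.restrictScalars F) = 0 := by
  have h1 := (AlgEquiv.restrictNormal_eq_one_iff L τ).2 h
  rw [← hκ, h1, D.kap_one, map_zero]

omit hk hc in
/-- the values of the cocycle are multiples of the second point -/
private theorem fin_val (σ : AlgebraicClosure G ≃ₐ[F] AlgebraicClosure G) :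
    ∃ x : 𝓞 K, c σ = pm (L.val.restrictScalars K) (sm L x (up L P₂)) := by
  obtain ⟨e⟩ := fin_emb G
  have o2 : Ord (cj ϖ) (pm (L.val.restrictScalars K) (up L P₂)) :=
    (Ord.map (L.val.restrictScalars K)).2 ((ord_up L).2 D.full₂.ord)
  obtain ⟨x, hx⟩ := ord_cases e (pd_cj D.pd).prime.ne_zero o2 (hc2 σ)
  exact ⟨x, by rw [pm_sm, hx]⟩

omit hk hc hc2 D hκ [IsGalois G L] [NumberField L] in
private theorem fin_fixP (τ : S9.Gal G) (h : ∀ x ∈ L, τ x = x) (Q : Pt L) :
    ga (τ.restrictScalars F) (pm (L.val.restrictScalars K) Q) = pm (L.val.restrictScalars K) Q := by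
  rcases cases_pt Q with rfl | ⟨x, y, hxy, rfl⟩
  · rw [map_zero, map_zero]
  · obtain ⟨h1, e1⟩ := pm_mk (L.val.restrictScalars K) x y hxy
    rw [e1]
    obtain ⟨h2, e2⟩ := pm_mk (((τ.restrictScalars F : AlgebraicClosure G ≃ₐ[F]
      AlgebraicClosure G) : AlgebraicClosure G →ₐ[F] AlgebraicClosure G).restrictScalars K)
      _ _ h1
    rw [ga, e2, mk_inj]
    exact ⟨h _ x.2, h _ y.2⟩

/-- the field `L` is stable -/
theorem fin_stable (σ : AlgebraicClosure G ≃ₐ[F] AlgebraicClosure G) (x : AlgebraicClosure G)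
    (hx : x ∈ L) : σ x ∈ L := by
  obtain ⟨e⟩ := fin_emb G
  have hmem : ∀ z : AlgebraicClosure G, (∀ τ : S9.Gal G, (∀ x ∈ L, τ x = x) → τ z = z) →
      z ∈ L := by
    intro z hz
    rw [← InfiniteGalois.fixedField_fixingSubgroup L, IntermediateField.mem_fixedField_iff]
    intro τ hτ
    exact hz τ ((IntermediateField.mem_fixingSubgroup_iff L τ).1 hτ)
  refine hmem _ fun τ hτ => ?_
  obtain ⟨t, ht⟩ : ∃ t : AlgebraicClosure G ≃ₐ[F] AlgebraicClosure G,
    t = τ.restrictScalars F := ⟨_, rfl⟩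
  have hG : ∀ y : G, (σ⁻¹ * t * σ) (algebraMap G (AlgebraicClosure G) y) =
      algebraMap G (AlgebraicClosure G) y := by
    intro y
    have h1 := AlgEquiv.restrictNormal_commutes σ G y
    rw [AlgEquiv.mul_apply, AlgEquiv.mul_apply, ← h1, ht]
    have h2 : (τ.restrictScalars F) (algebraMap G (AlgebraicClosure G) (σ.restrictNormal G y)) =
        algebraMap G (AlgebraicClosure G) (σ.restrictNormal G y) := τ.commutes _
    rw [h2, h1, ← AlgEquiv.mul_apply, inv_mul_cancel, AlgEquiv.one_apply]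
  obtain ⟨ρ, hρ⟩ := exists_res _ hG
  -- torsion points
  have hpt : ∀ {β : 𝓞 K} (R : Pt L), β ≠ 0 → Ord β R →
      ga ρ (pm (L.val.restrictScalars K) R) = pm (L.val.restrictScalars K) R := by
    intro β R hβ hR
    obtain ⟨R', hR'⟩ : ∃ R', R' = pm (L.val.restrictScalars K) R := ⟨_, rfl⟩
    have o : Ord β R' := hR' ▸ (Ord.map (L.val.restrictScalars K)).2 hR
    have h1 : ga ρ R' = gO (fun _ => 1) (σ⁻¹ * t * σ) R' := by
      rw [← hρ, gO_apply, map_one]
      rfl
    have hk1 : Kap F G (fun _ : Gal(G/F) => (1 : 𝓞 K)) :=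
      ⟨rfl, fun _ _ => (one_mul 1).symm, fun _ => by rw [map_one, mul_one]⟩
    obtain ⟨a, ha⟩ : ∃ a : 𝓞 K, gO (fun _ => 1) σ R' = sm (AlgebraicClosure G) a R' := by
      refine ord_cases e hβ o ?_
      rw [← gO_sm, (o β).2 dvd_rfl, gO_zero]
    have h2 : gO (fun _ => 1) t R' = R' := by
      rw [gO_apply, map_one, ht, hR']
      exact fin_fixP L τ hτ R
    rw [← hR', h1, gO_mul hk1, gO_mul hk1, ha, gO_sm, h2, ← ha, ← gO_mul hk1, inv_mul_cancel,
      gO_one hk1]
  have hζ : ρ (ζ : AlgebraicClosure G) = ζ := by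
    have hz : IsPrimitiveRoot (ζ : AlgebraicClosure G) ℓ :=
      D.zeta.map_of_injective (f := L.val) L.val.injective
    have h1 : (σ (ζ : AlgebraicClosure G)) ^ ℓ = 1 := by
      rw [← map_pow, hz.pow_eq_one, map_one]
    have : NeZero ℓ := ⟨D.pd.hl.ne_zero⟩
    obtain ⟨i, _, hi⟩ := hz.eq_pow_of_pow_eq_one h1
    have h2 : ρ (ζ : AlgebraicClosure G) = (σ⁻¹ * t * σ) ζ := by
      rw [← hρ]
      rfl
    have h3 : t (ζ : AlgebraicClosure G) = ζ := by
      rw [ht]
      exact hτ _ ζ.2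
    rw [h2, AlgEquiv.mul_apply, AlgEquiv.mul_apply, ← hi, map_pow t, h3, hi, ← AlgEquiv.mul_apply,
      inv_mul_cancel, AlgEquiv.one_apply]
  have hct : c t = 0 := by
    rw [ht]
    exact fin_fix L D hκ τ hτ
  have hcρ : c (ρ.restrictScalars F) = 0 := by
    obtain ⟨a, ha⟩ := fin_val hc2 L D hκ σ
    have h1 : gO k t (c σ) = c σ := by
      rw [ha, ht, gO_res hk]
      exact fin_fixP L τ hτ _
    rw [hρ, mul_assoc, hc, hc t, hct, zero_add, h1, ← hc, inv_mul_cancel, fin_one hk hc L D hκ]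
  have hfix : ∀ y ∈ L, ρ y = y := by
    refine (AlgEquiv.restrictNormal_eq_one_iff L ρ).1 ?_
    have hinj := pm_inj (L.val.restrictScalars K)
    have hga : ∀ Q : Pt L, pm (L.val.restrictScalars K) (ga (ρ.restrictNormal L) Q) =
        ga ρ (pm (L.val.restrictScalars K) Q) := fun Q => fin_ga L ρ Q
    refine D.gen _ ?_ ?_ ?_ ?_
    · apply hinj
      rw [hga, hpt _ D.pd.prime.ne_zero ((ord_up L).2 D.full.ord)]
    · apply hinj
      rw [hga, hpt _ (pd_cj D.pd).prime.ne_zero ((ord_up L).2 D.full₂.ord)]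
    · apply hinj
      rw [hκ, hcρ, map_zero]
    · apply (algebraMap L (AlgebraicClosure G)).injective
      rw [AlgEquiv.restrictNormal_commutes]
      exact hζ
  have h5 : (σ⁻¹ * t * σ) x = x := by
    rw [← hρ]
    exact hfix x hx
  rw [AlgEquiv.mul_apply, AlgEquiv.mul_apply] at h5
  have h6 := congrArg σ h5
  rw [← AlgEquiv.mul_apply σ, mul_inv_cancel, AlgEquiv.one_apply, ht] at h6
  exact h6

variable [IsGalois F L]

/-- **The twisted cocycle on the finite level** -/
theorem exists_TCK : ∃ C : Gal(L/F) → Pt L, TCK k ϖ ℓ q P₀ P₂ ζ C ∧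
    (∀ g : Gal(L/G), C (toF F g) = κ g) ∧
    ∀ σ : AlgebraicClosure G ≃ₐ[F] AlgebraicClosure G,
      pm (L.val.restrictScalars K) (C (σ.restrictNormal L)) = c σ := by
  have hinj := pm_inj (L.val.restrictScalars K)
  have f1 : FiniteDimensional F G := Module.Finite.of_restrictScalars_finite ℚ F G
  have hFG : Algebra.IsAlgebraic F G := Algebra.IsAlgebraic.of_finite F G
  have hFΩ : Algebra.IsAlgebraic F (AlgebraicClosure G) := Algebra.IsAlgebraic.trans F G _
  have hC : IsAlgClosure F (AlgebraicClosure G) := ⟨inferInstance, hFΩ⟩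
  have hN : Normal F (AlgebraicClosure G) := IsAlgClosure.normal F _
  have ht : ∀ g : Gal(L/F), ∃ τ : AlgebraicClosure G ≃ₐ[F] AlgebraicClosure G,
      τ.restrictNormal L = g := by
    intro g
    obtain ⟨τ, hτ⟩ := AlgEquiv.restrictNormalHom_surjective (F := F) (K₁ := L)
      (AlgebraicClosure G) g
    exact ⟨τ, hτ⟩
  choose t ht using ht
  have hk2 : ∀ g : Gal(L/F), ∃ Q : Pt L, pm (L.val.restrictScalars K) Q = c (t g) := by
    intro g
    obtain ⟨a, ha⟩ := fin_val hc2 L D hκ (t g)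
    exact ⟨_, ha.symm⟩
  choose C hC' using hk2
  have hmul : ∀ σ τ : AlgebraicClosure G ≃ₐ[F] AlgebraicClosure G, (σ * τ).restrictNormal L =
      σ.restrictNormal L * τ.restrictNormal L := by
    intro σ τ
    exact map_mul (AlgEquiv.restrictNormalHom (F := F) (K₁ := AlgebraicClosure G) L) σ τ
  have hC2 : ∀ σ : AlgebraicClosure G ≃ₐ[F] AlgebraicClosure G,
      pm (L.val.restrictScalars K) (C (σ.restrictNormal L)) = c σ := by
    intro σ
    obtain ⟨s, hs⟩ : ∃ s, s = t (σ.restrictNormal L) := ⟨_, rfl⟩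
    have hsr : s.restrictNormal L = σ.restrictNormal L := by rw [hs, ht]
    have h3 : ∀ x : L, (s⁻¹ * σ) (x : AlgebraicClosure G) = x := by
      intro x
      have h4 : σ (x : AlgebraicClosure G) = s x := by
        have h5 := AlgEquiv.restrictNormal_commutes σ L x
        have h6 := AlgEquiv.restrictNormal_commutes s L x
        rw [hsr] at h6
        exact h5.symm.trans h6
      rw [AlgEquiv.mul_apply, h4, ← AlgEquiv.mul_apply, inv_mul_cancel, AlgEquiv.one_apply]
    obtain ⟨ρ, hρ⟩ := exists_res (s⁻¹ * σ) (fun x => h3 (algebraMap G L x))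
    have h7 : c (s⁻¹ * σ) = 0 := by
      rw [← hρ]
      refine fin_fix L D hκ ρ fun x hx => ?_
      have h8 := h3 ⟨x, hx⟩
      rw [← hρ] at h8
      exact h8
    have h8 := hc s (s⁻¹ * σ)
    rw [mul_inv_cancel_left, h7, gO_zero, add_zero] at h8
    rw [hC', ← hs, h8]
  have hgk : ∀ (σ : AlgebraicClosure G ≃ₐ[F] AlgebraicClosure G) (Q : Pt L),
      pm (L.val.restrictScalars K) (gk G k (σ.restrictNormal L) Q) =
        gO k σ (pm (L.val.restrictScalars K) Q) := by
    intro σ Q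
    have h1 : rs G (σ.restrictNormal L) = σ.restrictNormal G := by
      apply AlgEquiv.ext
      intro x
      apply (algebraMap G (AlgebraicClosure G)).injective
      rw [AlgEquiv.restrictNormal_commutes]
      have h2 := congrArg (algebraMap L (AlgebraicClosure G)) (rs_apply (σ.restrictNormal L) x)
      rw [AlgEquiv.restrictNormal_commutes] at h2
      exact h2
    rw [gk_apply, h1, pm_sm, fin_ga, gO_apply]
  have hCκ : ∀ g : Gal(L/G), C (toF F g) = κ g := by
    intro g
    obtain ⟨τ, hτ⟩ := AlgEquiv.restrictNormalHom_surjective (F := G) (K₁ := L)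
      (AlgebraicClosure G) g
    have hτ' : τ.restrictNormal L = g := hτ
    have h1 : (τ.restrictScalars F).restrictNormal L = toF F g := by
      apply AlgEquiv.ext
      intro x
      apply (algebraMap L (AlgebraicClosure G)).injective
      rw [AlgEquiv.restrictNormal_commutes, ← hτ', toF_apply, AlgEquiv.restrictNormal_commutes]
      rfl
    apply hinj
    rw [← h1, hC2, ← hκ, hτ']
  refine ⟨C, ⟨hk, ?_, ?_, ?_⟩, hCκ, hC2⟩
  · intro g g'
    apply hinj
    have h3 := hC2 (t g * t g')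
    rw [hmul, ht, ht] at h3
    have h4 := hgk (t g) (C g')
    rw [ht] at h4
    rw [h3, map_add, h4, hC', hC']
    exact hc _ _
  · intro g
    apply hinj
    rw [pm_sm, hC', map_zero]
    exact hc2 _
  · have e : (fun g : Gal(L/G) => C (toF F g)) = κ := funext hCκ
    rw [e]
    exact D

end

end Pool.Agent.Lib.MP_1a91b9_nuY.TP
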