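import Pool.Agent.Lib.MP_1a91b9_nuX.DH.Triv
import Pool.Agent.Lib.MP_1a91b9_nuY.TP.Act
import Pool.Agent.Lib.MP_1a91b9_nuY.TP.Chi

/-!
# TP: the Kummer class of a twisted cocycle

`C` is a cocycle of `Gal(L/F)` for the twisted action with values in the points killed by `cj ϖ`. Its restriction to `Gal(L/G)` is a
cocycle in the sense of nuX/DH, and its Kummer class `y` is isotypic for the twisted action of `Gal(N/F)`.
-/

set_option autoImplicit false

namespace Pool.Agent.Lib.MP_1a91b9_nuY.TP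

variable [Pool.Agent.Lib.MP_1a91b9_nuT.CD]

open NumberField IsDedekindDomain WeierstrassCurve Pool.Agent.Lib.MP_1a91b9_nuT
open Pool.Agent.Lib.MP_1a91b9_nuX Pool.Agent.Lib.MP_1a91b9_nuX.DB Pool.Agent.Lib.MP_1a91b9_nuX.DX
open Pool.Agent.Lib.MP_1a91b9_nuX.DH (TC KC)
open Pool.Agent.Lib.MP_1a91b9_nuY.TS (Kap gk IsoK)

universe u

variable [HC]

/-- The data: `P₀` has annihilator `(ϖ)` and generates `N` over `G`, `P₂` has annihilator `(cj ϖ)` and generates
`N₂` over `G`; `ζ` is an `ℓ`-th root of unity; `C` is a cocycle of `Gal(L/F)` for the twisted action with values in the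
points killed by `cj ϖ`; `L` is generated over `G` by all of these. -/
structure TCK {F G N N₂ L : Type u} [Field F] [NumberField F] [Algebra K F] [Field G]
    [NumberField G] [Algebra K G] [Field N] [NumberField N] [Algebra K N] [Field N₂]
    [NumberField N₂] [Algebra K N₂] [Field L] [NumberField L] [Algebra K L] [Algebra F G]
    [Algebra F L] [Algebra G N] [Algebra G N₂] [Algebra G L] [Algebra N L] [Algebra N₂ L]
    [IsScalarTower K F G] [IsScalarTower K F L] [IsScalarTower K G N] [IsScalarTower K G N₂]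
    [IsScalarTower K G L] [IsScalarTower K N L] [IsScalarTower K N₂ L] [IsScalarTower F G L]
    [IsScalarTower G N L] [IsScalarTower G N₂ L] [IsGalois F G] [IsGalois G N] [IsGalois G N₂]
    [IsGalois G L] [DecidableEq G] [DecidableEq N] [DecidableEq N₂] [DecidableEq L]
    (k : Gal(G/F) → 𝓞 K) (ϖ : 𝓞 K) (ℓ q : ℕ)
    (P₀ : Pt N) (P₂ : Pt N₂) (ζ : L) (C : Gal(L/F) → Pt L) : Prop where
  ch : Kap F G k
  coc : ∀ g h : Gal(L/F), C (g * h) = C g + gk G k g (C h)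
  tor : ∀ g : Gal(L/F), sm L (cj ϖ) (C g) = 0
  tc : TC ϖ ℓ q P₀ P₂ ζ (fun g : Gal(L/G) => C (toF F g))

section
variable {F G N N₂ L : Type u} [Field F] [NumberField F] [Algebra K F] [Field G]
  [NumberField G] [Algebra K G] [Field N] [NumberField N] [Algebra K N] [Field N₂]
  [NumberField N₂] [Algebra K N₂] [Field L] [NumberField L] [Algebra K L] [Algebra F G]
  [Algebra F L] [Algebra G N] [Algebra G N₂] [Algebra G L] [Algebra N L] [Algebra N₂ L]
  [IsScalarTower K F G] [IsScalarTower K F L] [IsScalarTower K G N] [IsScalarTower K G N₂]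
  [IsScalarTower K G L] [IsScalarTower K N L] [IsScalarTower K N₂ L] [IsScalarTower F G L]
  [IsScalarTower G N L] [IsScalarTower G N₂ L] [IsGalois F G] [IsGalois G N] [IsGalois G N₂]
  [IsGalois G L] [DecidableEq G] [DecidableEq N] [DecidableEq N₂] [DecidableEq L]
  {k : Gal(G/F) → 𝓞 K} {ϖ : 𝓞 K} {ℓ q : ℕ}
  {P₀ : Pt N} {P₂ : Pt N₂} {ζ : L} {C : Gal(L/F) → Pt L}
  (D : TCK k ϖ ℓ q P₀ P₂ ζ C)
include D

theorem TCK.exists_kap (g : Gal(L/F)) : ∃ x : 𝓞 K, C g = sm L x (up L P₂) := by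
  obtain ⟨f⟩ := exists_emb L
  have hp := (pd_cj D.tc.pd).prime
  exact ord_cases f hp.ne_zero ((ord_up L).2 D.tc.full₂.ord) (D.tor g)

theorem TCK.kap_mul {g h : Gal(L/F)} {x y c : 𝓞 K} (hx : C g = sm L x (up L P₂))
    (hy : C h = sm L y (up L P₂)) (hc : gk G k g (up L P₂) = sm L c (up L P₂)) :
    C (g * h) = sm L (x + c * y) (up L P₂) := by
  have h3 : sm L (x + c * y) (up L P₂) = sm L x (up L P₂) + sm L y (sm L c (up L P₂)) := by
    rw [map_add, mul_comm c y, map_mul]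
    rfl
  rw [D.coc, hx, hy, gk_sm, hc, h3]

theorem TCK.kap_conj {g h : Gal(L/F)} {x y z c c' : 𝓞 K} (hx : C g = sm L x (up L P₂))
    (hy : C h = sm L y (up L P₂)) (hz : C (g⁻¹ * h * g) = sm L z (up L P₂))
    (hc : gk G k g (up L P₂) = sm L c (up L P₂)) (hc' : gk G k h (up L P₂) = sm L c' (up L P₂)) :
    cj ϖ ∣ c * z - (y + (c' - 1) * x) := by
  have h1 := D.kap_mul hx hz hc
  have h2 := D.kap_mul hy hx hc'
  have h3 : g * (g⁻¹ * h * g) = h * g := by group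
  rw [h3, h2] at h1
  have h4 := D.tc.kap_unique.1 h1.symm
  have h5 : c * z - (y + (c' - 1) * x) = x + c * z - (y + c' * x) := by ring
  rw [h5]
  exact h4

variable [Algebra F N] [IsScalarTower K F N] [IsScalarTower F G N] [IsScalarTower F N L]
  [IsGalois F N] [IsGalois F L]

omit [IsGalois F N] in
/-- the character of the roots of unity for the twisted action -/
theorem TCK.chi (g : Gal(L/F)) {c d : 𝓞 K} {x : ℕ} (hd : gk G k g (up L P₀) = sm L d (up L P₀))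
    (hc : gk G k g (up L P₂) = sm L c (up L P₂)) (hx : g ζ = ζ ^ x) :
    cj ϖ ∣ (x : 𝓞 K) - c * cj d := by
  have hp := D.tc.pd
  have hR := (ord_up L).2 D.tc.full.ord
  have hR₂ := (ord_up L).2 D.tc.full₂.ord
  obtain ⟨d₀, -, hd₀⟩ := gal_sm (k := F) hp.prime.ne_zero hR g
  obtain ⟨c₀, -, hc₀⟩ := gal_sm (k := F) (pd_cj hp).prime.ne_zero hR₂ g
  have h1 := chi_pt hp hR hR₂ D.tc.zeta g hd₀ hc₀ hx
  obtain ⟨e, he⟩ : ∃ e, e = k (rs G g) := ⟨_, rfl⟩
  have hu := D.ch.nrm (rs G g)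
  rw [← he] at hu
  have h2 : sm L (e * d₀) (up L P₀) = sm L d (up L P₀) := by
    rw [← hd, gk_apply, hd₀, he, map_mul]
    rfl
  have h3 : sm L (e * c₀) (up L P₂) = sm L c (up L P₂) := by
    rw [← hc, gk_apply, hc₀, he, map_mul]
    rfl
  have h4 : cj ϖ ∣ cj (e * d₀ - d) := cj_dvd_iff.2 ((hR.sm_eq_iff _ _).1 h2)
  have h5 := (hR₂.sm_eq_iff _ _).1 h3
  have e1 : (x : 𝓞 K) - c * cj d = ((x : 𝓞 K) - c₀ * cj d₀) + (e * c₀ - c) * cj d +
      e * c₀ * cj (e * d₀ - d) + c₀ * cj d₀ * (1 - e * cj e) := by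
    rw [map_sub, map_mul]
    ring
  rw [e1, hu, sub_self, mul_zero, add_zero]
  exact dvd_add (dvd_add h1 (Dvd.dvd.mul_right h5 _)) (Dvd.dvd.mul_left h4 _)

theorem TCK.galois_step {φ : 𝓞 K →+ ZMod ℓ} (hφ : ∀ x : 𝓞 K, cj ϖ ∣ x → φ x = 0)
    {g : Gal(L/F)} {d : 𝓞 K} (hd : gk G k g (up L P₀) = sm L d (up L P₀)) {α α' : L} (hα : α ≠ 0)
    (hα' : α' ≠ 0)
    (h1 : ∀ (σ : Gal(L/N)) (x : 𝓞 K), C (toF F σ) = sm L x (up L P₂) → σ α = ζ ^ (φ x).val * α)
    (h2 : ∀ (σ : Gal(L/N)) (x : 𝓞 K), C (toF F σ) = sm L x (up L P₂) →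
      σ α' = ζ ^ (φ (cj d * x)).val * α') :
    ∃ (n : Nˣ) (m : ℕ), g α = algebraMap N L (n : N) * ζ ^ m * α' := by
  have : IsGalois N L := IsGalois.tower_top_of_isGalois F N L
  have : NeZero ℓ := ⟨D.tc.pd.hl.ne_zero⟩
  have hval : ∀ z : ZMod ℓ, ((z.val : ℕ) : ZMod ℓ) = z := fun z => ZMod.natCast_zmod_val z
  have hφ' : ∀ x y : 𝓞 K, cj ϖ ∣ x - y → φ x = φ y := by
    intro x y hxy
    have := hφ _ hxy
    rwa [map_sub, sub_eq_zero] at this
  have hζ0 : ζ ≠ 0 := D.tc.zeta.ne_zero D.tc.pd.hl.ne_zero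
  have hR₂ := (ord_up L).2 D.tc.full₂.ord
  obtain ⟨xg, hxg⟩ := D.exists_kap g
  obtain ⟨c, hc⟩ := gk_ord G k (pd_cj D.tc.pd).prime.ne_zero hR₂ g
  obtain ⟨χ, hχ⟩ : ∃ x : ℕ, g ζ = ζ ^ x := by
    have h1 : (g ζ) ^ ℓ = 1 := by
      rw [← map_pow, D.tc.zeta.pow_eq_one, map_one]
    obtain ⟨i, _, hi⟩ := D.tc.zeta.eq_pow_of_pow_eq_one h1
    exact ⟨i, hi.symm⟩
  have hchi := D.chi g hd hc hχ
  obtain ⟨m, hm⟩ : ∃ m : ℕ, m = (φ (cj d * xg)).val := ⟨_, rfl⟩
  have hgα : g α ≠ 0 := by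
    intro h
    exact hα ((map_eq_zero g).1 h)
  have hne : α' * ζ ^ m ≠ 0 := mul_ne_zero hα' (pow_ne_zero _ hζ0)
  have hrsG : ∀ h : Gal(L/N), rs G (toF F h) = 1 := by
    intro h
    apply AlgEquiv.ext
    intro x
    apply (algebraMap G L).injective
    rw [rs_apply, AlgEquiv.one_apply, toF_apply, IsScalarTower.algebraMap_apply G N L,
      AlgEquiv.commutes]
  have hgkN : ∀ (h : Gal(L/N)) (Q : Pt L), gk G k (toF F h) Q = ga h Q := by
    intro h Q
    rw [gk_apply, hrsG, D.ch.one, map_one, ga_toF]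
    rfl
  have hfix : ∀ h : Gal(L/N), h (g α / (α' * ζ ^ m)) = g α / (α' * ζ ^ m) := by
    intro h
    obtain ⟨xh, hxh⟩ := D.exists_kap (toF F h)
    obtain ⟨c', hc'⟩ := gk_ord G k (pd_cj D.tc.pd).prime.ne_zero hR₂ (toF F h)
    obtain ⟨χh, hχh⟩ : ∃ x : ℕ, h ζ = ζ ^ x := by
      have h1 : (h ζ) ^ ℓ = 1 := by
        rw [← map_pow, D.tc.zeta.pow_eq_one, map_one]
      obtain ⟨i, _, hi⟩ := D.tc.zeta.eq_pow_of_pow_eq_one h1
      exact ⟨i, hi.symm⟩
    obtain ⟨xk, hxk⟩ := D.exists_kap (g⁻¹ * toF F h * g)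
    have hrs : rs N (g⁻¹ * toF F h * g) = 1 := by
      rw [rs_mul, rs_mul, rs_toF, mul_one, ← rs_mul, inv_mul_cancel]
      apply AlgEquiv.ext
      intro x
      apply (algebraMap N L).injective
      rw [rs_apply]
      rfl
    obtain ⟨σ', hσ'⟩ := exists_of_rs_one _ hrs
    have hk := h1 σ' xk (by rw [hσ']; exact hxk)
    have hconj := D.kap_conj hxg hxh hxk hc hc'
    have hchih : cj ϖ ∣ (χh : 𝓞 K) - c' :=
      D.tc.chi_N h (by rw [← hgkN, hc']) hχh
    -- the action of `h` on `g α`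
    have e1 : h (g α) = ζ ^ (χ * (φ xk).val) * g α := by
      have e2 : h (g α) = g ((g⁻¹ * toF F h * g) α) := by
        have e3 : g * (g⁻¹ * toF F h * g) = toF F h * g := by group
        have e4 : (g * (g⁻¹ * toF F h * g)) α = (toF F h * g) α := by rw [e3]
        exact e4.symm
      have e5 : (g⁻¹ * toF F h * g) α = σ' α := by rw [← hσ']; rfl
      rw [e2, e5, hk, map_mul, map_pow, hχ, ← pow_mul]
    have e6 : h (α' * ζ ^ m) = ζ ^ ((φ (cj d * xh)).val + χh * m) * α' := by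
      rw [map_mul, map_pow, hχh, h2 h xh hxh, ← pow_mul, pow_add]
      ring
    have e7 : ζ ^ (χ * (φ xk).val + m) = ζ ^ ((φ (cj d * xh)).val + χh * m) := by
      apply D.tc.zeta_pow
      rw [Nat.cast_add, Nat.cast_add, Nat.cast_mul, Nat.cast_mul, hm, hval, hval, hval]
      have f1 : (χ : ZMod ℓ) * φ xk = φ ((χ : 𝓞 K) * xk) := by
        rw [← nsmul_eq_mul, ← nsmul_eq_mul, map_nsmul]
      have f2 : φ ((χ : 𝓞 K) * xk) = φ (cj d * (xh + (c' - 1) * xg)) := by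
        apply hφ'
        have e : (χ : 𝓞 K) * xk - cj d * (xh + (c' - 1) * xg) =
            ((χ : 𝓞 K) - c * cj d) * xk + cj d * (c * xk - (xh + (c' - 1) * xg)) := by ring
        rw [e]
        exact dvd_add (Dvd.dvd.mul_right hchi _) (Dvd.dvd.mul_left hconj _)
      have f3 : φ (cj d * (xh + (c' - 1) * xg)) =
          φ (cj d * xh) + φ (c' * (cj d * xg)) - φ (cj d * xg) := by
        rw [← map_add, ← map_sub]
        congr 1
        ring
      have f4 : φ (c' * (cj d * xg)) = (χh : ZMod ℓ) * φ (cj d * xg) := by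
        rw [← nsmul_eq_mul, ← map_nsmul, nsmul_eq_mul]
        symm
        apply hφ'
        rw [← sub_mul]
        exact Dvd.dvd.mul_right hchih _
      rw [f1, f2, f3, f4]
      ring
    have hp1 : ζ ^ m ≠ 0 := pow_ne_zero _ hζ0
    have hp2 : ζ ^ ((φ (cj d * xh)).val + χh * m) ≠ 0 := pow_ne_zero _ hζ0
    rw [map_div₀, e1, e6, div_eq_div_iff (mul_ne_zero hp2 hα') hne, ← e7, pow_add]
    ring
  obtain ⟨a, ha⟩ := mem_of_fixed hfix
  have ha0 : a ≠ 0 := by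
    rintro rfl
    rw [map_zero] at ha
    exact div_ne_zero hgα hne ha.symm
  refine ⟨Units.mk0 a ha0, m, ?_⟩
  rw [Units.val_mk0, ha]
  field_simp

/-- the `ℓ`-th power of an element on which `Gal(L/N)` acts by powers of `ζ` comes from `N` -/
private theorem kud_pow {α : L} (hα : α ≠ 0) (h : ∀ σ : Gal(L/N), ∃ m : ℕ, σ α = ζ ^ m * α) :
    ∃ y : Nˣ, algebraMap N L (y : N) = α ^ ℓ := by
  have : IsGalois N L := IsGalois.tower_top_of_isGalois F N L
  have h1 : ∀ σ : Gal(L/N), σ (α ^ ℓ) = α ^ ℓ := by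
    intro σ
    obtain ⟨m, hm⟩ := h σ
    rw [map_pow, hm, mul_pow, ← pow_mul, mul_comm m ℓ, pow_mul, D.tc.zeta.pow_eq_one, one_pow,
      one_mul]
  obtain ⟨a, ha⟩ := mem_of_fixed h1
  have ha0 : a ≠ 0 := by
    rintro rfl
    rw [map_zero] at ha
    exact pow_ne_zero ℓ hα ha.symm
  exact ⟨Units.mk0 a ha0, ha⟩

/-- **The Kummer class of a twisted cocycle is isotypic for the twisted action.** -/
theorem TCK.exists_KC (φ : 𝓞 K →+ ZMod ℓ) (hφ : ∀ x : 𝓞 K, cj ϖ ∣ x → φ x = 0) :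
    ∃ (y : Nˣ) (α : L), KC G ϖ ℓ P₀ P₂ ζ (fun g : Gal(L/G) => C (toF F g)) φ y α ∧
      IsoK G k ℓ P₀ y := by
  have : IsGalois N L := IsGalois.tower_top_of_isGalois F N L
  have hFG : ∀ σ : Gal(L/N), toF F (toF G σ) = toF F σ := fun _ => rfl
  have hex : ∀ e : 𝓞 K, ∃ α : L, α ≠ 0 ∧ ∀ (σ : Gal(L/N)) (x : 𝓞 K),
      C (toF F σ) = sm L x (up L P₂) → σ α = ζ ^ (φ (cj e * x)).val * α := by
    intro e
    have h := D.tc.hilb (φ.comp (AddMonoidHom.mulLeft (cj e)))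
      (fun x hx => hφ _ (Dvd.dvd.mul_left hx _))
    simpa [hFG] using h
  choose α hα0 hα using hex
  have hσ : ∀ (e : 𝓞 K) (σ : Gal(L/N)), ∃ m : ℕ, σ (α e) = ζ ^ m * α e := by
    intro e σ
    obtain ⟨x, hx⟩ := D.exists_kap (toF F σ)
    exact ⟨_, hα e σ x hx⟩
  have hy : ∀ e : 𝓞 K, ∃ y : Nˣ, algebraMap N L (y : N) = α e ^ ℓ := fun e =>
    kud_pow D (hα0 e) (hσ e)
  choose y hy using hy
  have hadd : ∀ e e' : 𝓞 K, el ℓ (y (e + e')) = el ℓ (y e) + el ℓ (y e') := by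
    intro e e'
    have hne : α e * α e' ≠ 0 := mul_ne_zero (hα0 e) (hα0 e')
    have hfix : ∀ σ : Gal(L/N), σ (α (e + e') / (α e * α e')) = α (e + e') / (α e * α e') := by
      intro σ
      obtain ⟨x, hx⟩ := D.exists_kap (toF F σ)
      have hz : ζ ^ (φ (cj (e + e') * x)).val =
          ζ ^ (φ (cj e * x)).val * ζ ^ (φ (cj e' * x)).val := by
        have : NeZero ℓ := ⟨D.tc.pd.hl.ne_zero⟩
        rw [← pow_add]
        refine D.tc.zeta_pow ?_
        rw [Nat.cast_add, ZMod.natCast_zmod_val, ZMod.natCast_zmod_val, ZMod.natCast_zmod_val,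
          map_add, add_mul, map_add]
      have h0 : ζ ≠ 0 := D.tc.zeta.ne_zero D.tc.pd.hl.ne_zero
      rw [map_div₀, map_mul, hα _ σ x hx, hα _ σ x hx, hα _ σ x hx, hz]
      have hz1 : ζ ^ (φ (cj e * x)).val ≠ 0 := pow_ne_zero _ h0
      have hz2 : ζ ^ (φ (cj e' * x)).val ≠ 0 := pow_ne_zero _ h0
      have ha1 := hα0 e
      have ha2 := hα0 e'
      field_simp
    obtain ⟨a, ha⟩ := mem_of_fixed hfix
    have ha0 : a ≠ 0 := by
      rintro rfl
      rw [map_zero] at ha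
      exact div_ne_zero (hα0 _) hne ha.symm
    rw [← el_mul, el_eq]
    refine ⟨Units.mk0 a ha0, ?_⟩
    apply Units.ext
    apply (algebraMap N L).injective
    rw [Units.val_mul, Units.val_mul, Units.val_pow_eq_pow_val, Units.val_mk0, map_mul, map_mul,
      map_pow, hy, hy, hy, ha, div_pow, mul_pow]
    have hn1 : α e ^ ℓ ≠ 0 := pow_ne_zero _ (hα0 e)
    have hn2 : α e' ^ ℓ ≠ 0 := pow_ne_zero _ (hα0 e')
    field_simp
  have hK : IsoK G k ℓ P₀ (y 1) := by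
    refine ⟨AddMonoidHom.mk' (fun e => el ℓ (y e)) hadd, ?_⟩
    intro σ c hc
    obtain ⟨g, hg⟩ := exists_lift (L := L) σ
    have hd : gk G k g (up L P₀) = sm L c (up L P₀) := by
      have h3 : rs G g = rs G σ := by
        rw [← hg]
        apply AlgEquiv.ext
        intro x
        apply (algebraMap G L).injective
        rw [rs_apply, IsScalarTower.algebraMap_apply G N L, IsScalarTower.algebraMap_apply G N L,
          rs_apply, rs_apply]
      rw [gk_apply, ga_up, hg, h3, ← up_sm, ← gk_apply, hc, up_sm]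
    have h1 : ∀ (σ : Gal(L/N)) (x : 𝓞 K), C (toF F σ) = sm L x (up L P₂) →
        σ (α 1) = ζ ^ (φ x).val * α 1 := by
      intro τ x hx
      have h := hα 1 τ x hx
      rwa [map_one, one_mul] at h
    obtain ⟨n, m, hn⟩ := D.galois_step hφ hd (hα0 1) (hα0 c) h1 (hα c)
    change el ℓ (sg σ (y 1)) = el ℓ (y c)
    rw [el_eq]
    refine ⟨n, ?_⟩
    apply Units.ext
    apply (algebraMap N L).injective
    rw [sg_coe, ← hg, rs_apply, hy, map_pow, hn, Units.val_mul, Units.val_pow_eq_pow_val, map_mul,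
      map_pow, hy, mul_pow, mul_pow, ← pow_mul, mul_comm m ℓ, pow_mul, D.tc.zeta.pow_eq_one,
      one_pow, mul_one, mul_comm]
  refine ⟨y 1, α 1, ⟨?_, hφ, ?_, isoK_iso D.ch hK⟩, hK⟩
  · rw [hy]
  · intro σ x hx
    have h := hα 1 σ x hx
    rwa [map_one, one_mul] at h

end

end Pool.Agent.Lib.MP_1a91b9_nuY.TP
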