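import Pool.Agent.Lib.MP_1a91b9_nuX.DS.Sq
import Pool.Agent.Lib.MP_1a91b9_nuY.TP.Cob

/-!
# TP: the twisted action over the algebraic closure, twisted cocycles
-/

set_option autoImplicit false
set_option linter.unusedSectionVars false

namespace Pool.Agent.Lib.MP_1a91b9_nuY.TP

open NumberField IsDedekindDomain WeierstrassCurve Pool.Agent.Lib.MP_1a91b9_nuT
open Pool.Agent.Lib.MP_1a91b9_nuX Pool.Agent.Lib.MP_1a91b9_nuX.DB Pool.Agent.Lib.MP_1a91b9_nuX.DX
open Pool.Agent.Lib.MP_1a91b9_nuX.DH (TC KC LocSol)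
open Pool.Agent.Lib.MP_1a91b9_nuY.TS
open scoped Classical

variable [CD]

universe u

variable [HC]

noncomputable section

section
variable {F G : Type u} [Field F] [NumberField F] [Algebra K F] [Field G] [NumberField G]
  [Algebra K G] [Algebra F G] [IsScalarTower K F G] [IsGalois F G] (k : Gal(G/F) → 𝓞 K)

/-- the twisted action on the points over the algebraic closure -/
def gO (σ : AlgebraicClosure G ≃ₐ[F] AlgebraicClosure G) (P : Pt (AlgebraicClosure G)) :
    Pt (AlgebraicClosure G) :=
  sm (AlgebraicClosure G) (k (σ.restrictNormal G)) (ga σ P)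

theorem gO_apply (σ : AlgebraicClosure G ≃ₐ[F] AlgebraicClosure G)
    (P : Pt (AlgebraicClosure G)) :
    gO k σ P = sm (AlgebraicClosure G) (k (σ.restrictNormal G)) (ga σ P) := rfl

theorem smO_smO (a b : 𝓞 K) (Q : Pt (AlgebraicClosure G)) :
    sm (AlgebraicClosure G) a (sm (AlgebraicClosure G) b Q) =
      sm (AlgebraicClosure G) (a * b) Q := by
  rw [map_mul]
  rfl

theorem gaO_sm (σ : AlgebraicClosure G ≃ₐ[F] AlgebraicClosure G) (c : 𝓞 K)
    (P : Pt (AlgebraicClosure G)) :
    ga σ (sm (AlgebraicClosure G) c P) = sm (AlgebraicClosure G) c (ga σ P) :=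
  pm_sm _ c P

theorem gO_sm (σ : AlgebraicClosure G ≃ₐ[F] AlgebraicClosure G) (c : 𝓞 K)
    (P : Pt (AlgebraicClosure G)) :
    gO k σ (sm (AlgebraicClosure G) c P) = sm (AlgebraicClosure G) c (gO k σ P) := by
  rw [gO_apply, gO_apply, gaO_sm, smO_smO, smO_smO, mul_comm]

theorem gO_add (σ : AlgebraicClosure G ≃ₐ[F] AlgebraicClosure G)
    (P Q : Pt (AlgebraicClosure G)) : gO k σ (P + Q) = gO k σ P + gO k σ Q := by
  rw [gO_apply, gO_apply, gO_apply, map_add, map_add]

theorem gO_sub (σ : AlgebraicClosure G ≃ₐ[F] AlgebraicClosure G)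
    (P Q : Pt (AlgebraicClosure G)) : gO k σ (P - Q) = gO k σ P - gO k σ Q := by
  rw [gO_apply, gO_apply, gO_apply, map_sub, map_sub]

theorem gO_zero (σ : AlgebraicClosure G ≃ₐ[F] AlgebraicClosure G) :
    gO k σ (0 : Pt (AlgebraicClosure G)) = 0 := by
  rw [gO_apply, map_zero, map_zero]

variable {k}

theorem rn_mul (σ τ : AlgebraicClosure G ≃ₐ[F] AlgebraicClosure G) :
    (σ * τ).restrictNormal G = σ.restrictNormal G * τ.restrictNormal G :=
  map_mul (AlgEquiv.restrictNormalHom (F := F) (K₁ := AlgebraicClosure G) G) σ τ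

theorem rn_res (σ : S9.Gal G) : (σ.restrictScalars F).restrictNormal G = 1 := by
  apply AlgEquiv.ext
  intro x
  apply (algebraMap G (AlgebraicClosure G)).injective
  rw [AlgEquiv.restrictNormal_commutes]
  exact σ.commutes x

theorem gO_res (hk : Kap F G k) (σ : S9.Gal G) (P : Pt (AlgebraicClosure G)) :
    gO k (σ.restrictScalars F) P = ga σ P := by
  rw [gO_apply, rn_res, hk.one, map_one]
  rfl

theorem gO_mul (hk : Kap F G k) (σ τ : AlgebraicClosure G ≃ₐ[F] AlgebraicClosure G)
    (P : Pt (AlgebraicClosure G)) : gO k (σ * τ) P = gO k σ (gO k τ P) := by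
  have h : ga (σ * τ) P = ga σ (ga τ P) := by
    rcases cases_pt P with rfl | ⟨x, y, h, rfl⟩
    · rw [map_zero, map_zero, map_zero]
    · rfl
  rw [gO_apply, gO_apply, gO_apply, rn_mul, hk.mul, h, gaO_sm, smO_smO]

theorem gO_one (hk : Kap F G k) (P : Pt (AlgebraicClosure G)) :
    gO k (1 : AlgebraicClosure G ≃ₐ[F] AlgebraicClosure G) P = P := by
  have h1 : (1 : AlgebraicClosure G ≃ₐ[F] AlgebraicClosure G).restrictNormal G = 1 :=
    map_one (AlgEquiv.restrictNormalHom (F := F) (K₁ := AlgebraicClosure G) G)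
  have h : ga (1 : AlgebraicClosure G ≃ₐ[F] AlgebraicClosure G) P = P := by
    rcases cases_pt P with rfl | ⟨x, y, h, rfl⟩
    · rw [map_zero]
    · rfl
  rw [gO_apply, h1, hk.one, h, map_one]
  rfl

/-- an automorphism over `F` which fixes `G` -/
theorem exists_res (σ : AlgebraicClosure G ≃ₐ[F] AlgebraicClosure G)
    (h : ∀ x : G, σ (algebraMap G _ x) = algebraMap G _ x) :
    ∃ τ : S9.Gal G, τ.restrictScalars F = σ :=
  ⟨AlgEquiv.ofRingEquiv (f := σ.toRingEquiv) h, AlgEquiv.ext fun _ => rfl⟩

variable (k)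

/-- The twisted cocycles which are locally trivial over `G`. -/
structure TwC (c : (AlgebraicClosure G ≃ₐ[F] AlgebraicClosure G) → Pt (AlgebraicClosure G)) :
    Prop where
  coc : ∀ σ τ, c (σ * τ) = c σ + gO k σ (c τ)
  sha : ∃ C ∈ S9.shaCoc (E G), ∀ σ : S9.Gal G,
    DH.tr G (AlgebraicClosure G) (C σ) = c (σ.restrictScalars F)

end

theorem tower_FLO {F G : Type u} [Field F] [Field G] [Algebra F G]
    (L : IntermediateField G (AlgebraicClosure G)) : IsScalarTower F L (AlgebraicClosure G) :=
  IsScalarTower.of_algebraMap_eq fun _ => rfl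

theorem tower_KFL {F G : Type u} [Field F] [Field G] [Algebra K F] [Algebra K G] [Algebra F G]
    [IsScalarTower K F G] (L : IntermediateField G (AlgebraicClosure G)) :
    IsScalarTower K F L :=
  IsScalarTower.of_algebraMap_eq fun x => by
    apply Subtype.ext
    change algebraMap K (AlgebraicClosure G) x = algebraMap F (AlgebraicClosure G)
      (algebraMap K F x)
    rw [← IsScalarTower.algebraMap_apply K F (AlgebraicClosure G)]

/-- a field which is stable under all the automorphisms over `F` is Galois over `F` -/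
theorem gal_stable {F G : Type u} [Field F] [NumberField F] [Field G] [NumberField G]
    [Algebra F G] (L : IntermediateField G (AlgebraicClosure G)) [NumberField L]
    (hst : ∀ (σ : AlgebraicClosure G ≃ₐ[F] AlgebraicClosure G) (x : AlgebraicClosure G),
      x ∈ L → σ x ∈ L) : IsGalois F L := by
  have f1 : FiniteDimensional F G := Module.Finite.of_restrictScalars_finite ℚ F G
  have f2 : FiniteDimensional F L := Module.Finite.of_restrictScalars_finite ℚ F L
  have hFG : Algebra.IsAlgebraic F G := Algebra.IsAlgebraic.of_finite F G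
  have hFΩ : Algebra.IsAlgebraic F (AlgebraicClosure G) := Algebra.IsAlgebraic.trans F G _
  have hC : IsAlgClosure F (AlgebraicClosure G) := ⟨inferInstance, hFΩ⟩
  have hN : Normal F (AlgebraicClosure G) := IsAlgClosure.normal F _
  have hNL : Normal F (L.restrictScalars F) := by
    rw [IntermediateField.normal_iff_forall_map_le']
    intro σ z hz
    rw [IntermediateField.mem_map] at hz
    obtain ⟨w, hw, rfl⟩ := hz
    exact hst σ w hw
  let e : (L.restrictScalars F) ≃ₐ[F] L :=
    AlgEquiv.ofRingEquiv (f := RingEquiv.refl L) fun x => rfl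
  have hNN : Normal F L := Normal.of_algEquiv e
  exact ⟨⟩

end

end Pool.Agent.Lib.MP_1a91b9_nuY.TP
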