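import Pool.Agent.Lib.MP_1a91b9_nuW.DY.Main
import Pool.Agent.Lib.MP_1a91b9_nuY.TP.Kum

/-!
# TP: the Kummer class of a twisted locally trivial cocycle at the places above `ℓ` which are not anomalous for the twist,
and the local conditions
-/

set_option autoImplicit false
set_option linter.unusedSectionVars false

namespace Pool.Agent.Lib.MP_1a91b9_nuY.TP

open NumberField IsDedekindDomain WeierstrassCurve Pool.Agent.Lib.MP_1a91b9_nuT
open Pool.Agent.Lib.MP_1a91b9_nuX Pool.Agent.Lib.MP_1a91b9_nuX.DB Pool.Agent.Lib.MP_1a91b9_nuX.DX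
open Pool.Agent.Lib.MP_1a91b9_nuX.DH (TC KC LocSol)
open Pool.Agent.Lib.MP_1a91b9_nuX.DS Pool.Agent.Lib.MP_1a91b9_nuX.DY
open Pool.Agent.Lib.MP_1a91b9_nuW.W Pool.Agent.Lib.MP_1a91b9_nuW.DS
open Pool.Agent.Lib.MP_1a91b9_nuW.DY (tc_od')
open Pool.Agent.Lib.MP_1a91b9_nuY.TS

variable [CD]

universe u

variable [HC]

section
variable {F G N N₂ L : Type u} [Field F] [NumberField F] [Algebra K F] [Field G]
  [NumberField G] [Algebra K G] [Field N] [NumberField N] [Algebra K N] [Field N₂]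
  [NumberField N₂] [Algebra K N₂] [Field L] [NumberField L] [Algebra K L] [Algebra F G]
  [Algebra F L] [Algebra G N] [Algebra G N₂] [Algebra G L] [Algebra N L] [Algebra N₂ L]
  [IsScalarTower K F G] [IsScalarTower K F L] [IsScalarTower K G N] [IsScalarTower K G N₂]
  [IsScalarTower K G L] [IsScalarTower K N L] [IsScalarTower K N₂ L] [IsScalarTower F G L]
  [IsScalarTower G N L] [IsScalarTower G N₂ L] [IsGalois F G] [IsGalois G N] [IsGalois G N₂]
  [IsGalois G L] [DecidableEq G] [DecidableEq N] [DecidableEq N₂] [DecidableEq L]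
  [Algebra F N] [IsScalarTower K F N] [IsScalarTower F G N] [IsScalarTower F N L]
  [IsGalois F N] [IsGalois F L]
  {k : Gal(G/F) → 𝓞 K} {ϖ : 𝓞 K} {ℓ q : ℕ}
  {P₀ : Pt N} {P₂ : Pt N₂} {ζ : L} {C : Gal(L/F) → Pt L}
  (D : TCK k ϖ ℓ q P₀ P₂ ζ C)
include D

/-- the Frobenius automorphism over `F` and the twisted action -/
theorem TCK.frob {b : 𝓞 K} {Ψ : Ideal (𝓞 F) → 𝓞 K} (hfr : FrK F G k b Ψ)
    (W : HeightOneSpectrum (𝓞 L)) (hb : W.valuation L (bD L) = 1)
    (hg : W.valuation L (algebraMap K L (b : K)) = 1)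
    (hW : W.valuation L (algebraMap K L (cj ϖ : K)) = 1) :
    ∃ τ : Gal(L/F), gpl τ W = W ∧
      (∀ x : 𝓞 L, τ • x - x ^ (Ideal.absNorm (W.under (𝓞 F)).asIdeal) ∈ W.asIdeal) ∧
      gk G k τ (up L P₂) = sm L (Ψ (W.under (𝓞 F)).asIdeal) (up L P₂) := by
  obtain ⟨τ, hτ, hτW⟩ := exists_frobW (k := F) W
  refine ⟨τ, hτW, hτ, ?_⟩
  have h1 := DB.frob (k := F) W hb τ hτ hW (((ord_up L).2 D.tc.full₂.ord (cj ϖ)).2 dvd_rfl)
  have hu : (W.under (𝓞 G)).under (𝓞 F) = W.under (𝓞 F) := under_under W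
  have hgG : (W.under (𝓞 G)).valuation G (algebraMap K G (b : K)) = 1 := by
    rw [← val_map_eq, ← IsScalarTower.algebraMap_apply K G L]
    exact hg
  have h2 := hfr (W.under (𝓞 G)) hgG (rs G τ) (fun x => by
    rw [hu]
    change algebraMap (𝓞 G) (𝓞 L) (rs G τ • x - x ^ (Ideal.absNorm (W.under (𝓞 F)).asIdeal)) ∈
      W.asIdeal
    have e : algebraMap (𝓞 G) (𝓞 L) (rs G τ • x) = τ • algebraMap (𝓞 G) (𝓞 L) x := by
      apply RingOfIntegers.ext
      exact rs_apply τ (x : G)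
    rw [map_sub, map_pow, e]
    exact hτ _)
  rw [hu] at h2
  rw [gk_apply, h1, sm_sm, h2]

/-- the Kummer class of a locally trivial twisted cocycle is locally an `ℓ`-th power -/
theorem TCK.pl {b : 𝓞 K} {Ψ : Ideal (𝓞 F) → 𝓞 K} (hfr : FrK F G k b Ψ)
    (W : HeightOneSpectrum (𝓞 L)) (hb : W.valuation L (bD L) = 1)
    (hg : W.valuation L (algebraMap K L (b : K)) = 1)
    (hW : W.valuation L (algebraMap K L (cj ϖ : K)) = 1)
    (hna : ¬ cj ϖ ∣ Ψ (W.under (𝓞 F)).asIdeal - 1)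
    (hloc : LocSol (fun g : Gal(L/G) => C (toF F g)) W)
    {φ : 𝓞 K →+ ZMod ℓ} {y : Nˣ} {α : L}
    (hK : KC G ϖ ℓ P₀ P₂ ζ (fun g : Gal(L/G) => C (toF F g)) φ y α) :
    PL ℓ (W.under (𝓞 N)) (y : N) := by
  have iG : IsGalois N L := IsGalois.tower_top_of_isGalois F N L
  have hpr := (pd_cj D.tc.pd).prime
  have hR₂ : Ord (cj ϖ) (up L P₂) := (ord_up L).2 D.tc.full₂.ord
  obtain ⟨τ, hτW, hτF, hτ⟩ := D.frob hfr W hb hg hW
  -- the automorphisms over `N` are not twisted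
  have hgkN : ∀ (h : Gal(L/N)) (Q : Pt L), gk G k (toF F h) Q = ga h Q := by
    intro h Q
    have e : toF F (toF G h) = toF F h := rfl
    rw [← e, gk_toF D.ch]
    rfl
  -- the decomposition group commutes with the Frobenius automorphism
  have hcomm : ∀ g : Gal(L/N), gpl g W = W → toF F g * τ = τ * toF F g := by
    intro g hg'
    have hrs : rs N (τ⁻¹ * ((toF F g)⁻¹ * τ * toF F g)) = 1 := by
      have h0 : rs N ((toF F g)⁻¹) = 1 := by
        have h1 : rs N ((toF F g)⁻¹ * toF F g) = 1 := by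
          rw [inv_mul_cancel]
          apply AlgEquiv.ext
          intro x
          apply (algebraMap N L).injective
          rw [rs_apply]
          rfl
        rw [rs_mul, rs_toF, mul_one] at h1
        exact h1
      rw [rs_mul, rs_mul, rs_mul, h0, rs_toF, one_mul, mul_one, ← rs_mul, inv_mul_cancel]
      apply AlgEquiv.ext
      intro x
      apply (algebraMap N L).injective
      rw [rs_apply]
      rfl
    obtain ⟨σ', hσ'⟩ := exists_of_rs_one _ hrs
    have h1 : σ' = 1 := by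
      refine D.tc.inert W hb hW hloc σ' fun x => ?_
      have hmem : ∀ (s : Gal(L/F)) (z : 𝓞 L), gpl s W = W → z ∈ W.asIdeal → s • z ∈ W.asIdeal := by
        intro s z hs hz
        rw [← hs]
        change s⁻¹ • s • z ∈ W.asIdeal
        rwa [inv_smul_smul]
      have hinv : ∀ s : Gal(L/F), gpl s W = W → gpl s⁻¹ W = W := by
        intro s hs
        have h2 : gpl (s⁻¹ * s) W = W := by rw [inv_mul_cancel, gpl_one]
        rwa [gpl_mul, hs] at h2
      have hgF : gpl (toF F g) W = W := hg'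
      obtain ⟨g', hg''⟩ : ∃ g' : Gal(L/F), g' = toF F g := ⟨_, rfl⟩
      rw [← hg''] at hgF hσ'
      set m := Ideal.absNorm (W.under (𝓞 F)).asIdeal with hm
      have h3 : g'⁻¹ • (τ • (g' • x) - (g' • x) ^ m) ∈ W.asIdeal :=
        hmem _ _ (hinv g' hgF) (hτF (g' • x))
      have h4 : τ⁻¹ • (τ • x - x ^ m) ∈ W.asIdeal := hmem _ _ (hinv τ hτW) (hτF x)
      have h5 : τ⁻¹ • (g'⁻¹ • (τ • (g' • x) - (g' • x) ^ m)) ∈ W.asIdeal :=
        hmem _ _ (hinv τ hτW) h3
      have h6 := W.asIdeal.sub_mem h5 h4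
      have e : (τ⁻¹ * (g'⁻¹ * τ * g')) • x - x =
          τ⁻¹ • (g'⁻¹ • (τ • (g' • x) - (g' • x) ^ m)) - τ⁻¹ • (τ • x - x ^ m) := by
        rw [smul_sub, smul_sub, smul_sub, smul_pow' g'⁻¹, inv_smul_smul, inv_smul_smul,
          mul_smul, mul_smul, mul_smul]
        ring
      have e2 : σ' • x = (τ⁻¹ * (g'⁻¹ * τ * g')) • x := by
        rw [← hσ']
        rfl
      rw [e2, e]
      exact h6
    rw [h1] at hσ'
    have h2 : τ⁻¹ * ((toF F g)⁻¹ * τ * toF F g) = 1 := by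
      rw [← hσ']
      rfl
    have h3 : (toF F g)⁻¹ * τ * toF F g = τ := by
      have h3 := congrArg (fun s => τ * s) h2
      simpa [mul_inv_cancel_left] using h3
    calc toF F g * τ = toF F g * ((toF F g)⁻¹ * τ * toF F g) := by rw [h3]
      _ = τ * toF F g := by group
  set c := Ψ (W.under (𝓞 F)).asIdeal with hc
  obtain ⟨e, e', he⟩ := (pd_cj D.tc.pd).inv hna
  obtain ⟨xτ, hxτ⟩ := D.exists_kap τ
  -- the values of the cocycle on the decomposition group
  have hkap : ∀ g : Gal(L/N), gpl g W = W → ∀ x cg : 𝓞 K, C (toF F g) = sm L x (up L P₂) →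
      ga g (up L P₂) = sm L cg (up L P₂) → cj ϖ ∣ x - (cg - 1) * (e * xτ) := by
    intro g hg' x cg hx hcg
    have h1 : C (toF F g * τ) = sm L (x + cg * xτ) (up L P₂) :=
      D.kap_mul hx hxτ (by rw [hgkN]; exact hcg)
    have h2 : C (τ * toF F g) = sm L (xτ + c * x) (up L P₂) := D.kap_mul hxτ hx hτ
    rw [hcomm g hg', h2] at h1
    have h5 : cj ϖ ∣ xτ + c * x - (x + cg * xτ) := D.tc.kap_unique.1 h1
    have h6 : x - (cg - 1) * (e * xτ) =
        e * (xτ + c * x - (x + cg * xτ)) - ((c - 1) * e - 1) * x := by ring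
    rw [h6, he]
    exact dvd_sub (h5.mul_left _) ((dvd_mul_right _ _).mul_right _)
  have hℓ : ℓ.Prime := D.tc.pd.hl
  have hFact : Fact ℓ.Prime := ⟨hℓ⟩
  have hφ0 := hK.ker
  refine ⟨L, inferInstance, inferInstance, inferInstance, iG, W,
    ζ ^ (φ (-(e * xτ))).val * α, rfl, ?_, ?_⟩
  · rw [mul_pow, ← pow_mul, mul_comm _ ℓ, pow_mul, D.tc.zeta.pow_eq_one, one_pow, one_mul, hK.pow]
  · intro g hg'
    obtain ⟨x, hx⟩ := D.exists_kap (toF F g)
    obtain ⟨cg, -, hcg⟩ := D.tc.exists_c (toF G g)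
    obtain ⟨t, ht⟩ := D.tc.exists_x (toF G g)
    have hcg' : ga g (up L P₂) = sm L cg (up L P₂) := by rw [← ga_toF (F := G)]; exact hcg
    have ht' : g ζ = ζ ^ t := ht
    have h1 : cj ϖ ∣ (t : 𝓞 K) - cg := D.tc.chi_N g hcg' ht'
    have h2 := hkap g hg' x cg hx hcg'
    rw [map_mul, map_pow, ht', hK.act g x hx, ← pow_mul, ← mul_assoc, ← pow_add]
    congr 1
    apply D.tc.zeta_pow
    push_cast
    rw [ZMod.natCast_zmod_val, ZMod.natCast_zmod_val]
    have h3 : (t : ZMod ℓ) * φ (-(e * xτ)) = φ ((t : 𝓞 K) * (-(e * xτ))) := by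
      rw [← nsmul_eq_mul, ← nsmul_eq_mul, map_nsmul]
    rw [h3, ← map_add]
    have h4 : (t : 𝓞 K) * (-(e * xτ)) + x = -(e * xτ) +
        (x - (cg - 1) * (e * xτ) - ((t : 𝓞 K) - cg) * (e * xτ)) := by ring
    rw [h4, map_add, hφ0 _ (dvd_sub h2 (h1.mul_right _)), add_zero]

end

end Pool.Agent.Lib.MP_1a91b9_nuY.TP
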