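import Pool.Agent.Lib.MP_1a91b9_nuY.TP.Fin

/-!
# TP: the twisted cocycles which are locally trivial and killed by `cj ϖ` are coboundaries
-/

set_option autoImplicit false
set_option linter.unusedSectionVars false

namespace Pool.Agent.Lib.MP_1a91b9_nuY.TP

open NumberField IsDedekindDomain WeierstrassCurve Pool.Agent.Lib.MP_1a91b9_nuT
open Pool.Agent.Lib.MP_1a91b9_nuX Pool.Agent.Lib.MP_1a91b9_nuX.DB Pool.Agent.Lib.MP_1a91b9_nuX.DX
open Pool.Agent.Lib.MP_1a91b9_nuX.DH (TC KC LocSol smF)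
open Pool.Agent.Lib.MP_1a91b9_nuW.W
open Pool.Agent.Lib.MP_1a91b9_nuY.TS
open scoped Classical

variable [CD]

universe u

variable [HC]

attribute [local instance] tower_FLO tower_KFL

section
variable {F G : Type u} [Field F] [NumberField F] [Algebra K F] [Field G] [NumberField G]
  [Algebra K G] [Algebra F G] [IsScalarTower K F G] [IsGalois F G] {k : Gal(G/F) → 𝓞 K}
  {b ϖ : 𝓞 K} {ℓ q : ℕ} {Ψ : Ideal (𝓞 F) → 𝓞 K}

/-- **The locally trivial twisted cocycles killed by `cj ϖ` are coboundaries.** -/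
theorem twc_cob (h : PD ϖ ℓ q) (A : AWK F G k b ϖ ℓ Ψ)
    {c : (AlgebraicClosure G ≃ₐ[F] AlgebraicClosure G) → Pt (AlgebraicClosure G)}
    (hc : TwC k c) (hc2 : ∀ σ, sm (AlgebraicClosure G) (cj ϖ) (c σ) = 0) :
    ∃ S : Pt (AlgebraicClosure G), sm (AlgebraicClosure G) (cj ϖ) S = 0 ∧
      ∀ σ, c σ = gO k σ S - S := by
  obtain ⟨C, hC, hCc⟩ := hc.sha
  obtain ⟨N, iN1, iN2, iN3, iN4, iN5, iN6, iN7, P₀, hP₀⟩ := exists_full' h G A.ep
  obtain ⟨N₂, iM1, iM2, iM3, iM4, iM5, iM6, iM7, P₂, hP₂⟩ := exists_full' (pd_cj h) G A.ep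
  have e1 : iN6 = fun a b => Classical.propDecidable (a = b) := Subsingleton.elim _ _
  have e2 : iM6 = fun a b => Classical.propDecidable (a = b) := Subsingleton.elim _ _
  subst e1
  subst e2
  let C' : S9.Gal G → Pt (AlgebraicClosure G) := fun σ => DH.tr G (AlgebraicClosure G) (C σ)
  have hC'c : ∀ σ, C' σ = c (σ.restrictScalars F) := hCc
  have hcoc : C ∈ S9.coc (E G) := hC.1.1
  have hC0' : IsLocallyConstant C' := hcoc.1.comp _
  have hC1' : ∀ σ τ : S9.Gal G, C' (σ * τ) = C' σ + ga σ (C' τ) := by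
    intro σ τ
    show DH.tr G _ (C (σ * τ)) = DH.tr G _ (C σ) + ga σ (DH.tr G _ (C τ))
    rw [hcoc.2 σ τ, map_add]
    congr 1
    exact DH.tr_map _ _
  have hC2' : ∀ σ, sm (AlgebraicClosure G) (cj ϖ) (C' σ) = 0 := by
    intro σ
    rw [hC'c]
    exact hc2 _
  obtain ⟨L, iL1, iL2, iL3, iL4, iL5, iL6, iL7, iL8, ζ, κ, D, hL, hκ⟩ :=
    DH.exists_TC h hP₀ hP₂ C' hC0' hC1' hC2'
  have hCv : ∀ v : HeightOneSpectrum (𝓞 G), C ∈ S9.trivOver (E G) (v.adicCompletion G) := by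
    intro v
    exact AddSubgroup.mem_iInf.1 hC.1.2 v
  have hL' : ∀ τ : S9.Gal G, (∀ x ∈ L, τ x = x) → C τ = 0 := by
    intro τ hτ
    have := hL τ hτ
    exact (DH.tr G (AlgebraicClosure G)).map_eq_zero_iff.1 this
  have hloc : ∀ W : HeightOneSpectrum (𝓞 L), LocSol κ W :=
    fun W => DH.locSol_of_triv C L hCv hL' κ hκ W
  have hκ' : ∀ τ : S9.Gal G, pm (L.val.restrictScalars K) (κ (τ.restrictNormal L)) =
      c (τ.restrictScalars F) := fun τ => (hκ τ).trans (hC'c τ)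
  have hGal : IsGalois F L :=
    gal_stable L fun σ x hx => fin_stable A.kap hc.coc hc2 L D hκ' σ x hx
  obtain ⟨c', D', hc'κ, hc'⟩ := exists_TCK A.kap hc.coc hc2 L D hκ'
  let aFN : Algebra F N := ((algebraMap G N).comp (algebraMap F G)).toAlgebra
  have t1 : IsScalarTower F G N := IsScalarTower.of_algebraMap_eq fun x => rfl
  have t2 : IsScalarTower K F N := IsScalarTower.of_algebraMap_eq fun x => by
    rw [IsScalarTower.algebraMap_apply K G N, IsScalarTower.algebraMap_apply K F G]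
    rfl
  have t3 : IsScalarTower F N L := IsScalarTower.of_algebraMap_eq fun x => by
    rw [IsScalarTower.algebraMap_apply F G L, IsScalarTower.algebraMap_apply F G N,
      ← IsScalarTower.algebraMap_apply G N L]
  have hGN : IsGalois F N := DS.sq_galois h.prime.ne_zero hP₀
  have hfun : (fun g : Gal(L/G) => c' (toF F g)) = κ := funext hc'κ
  obtain ⟨S, hS1, hS2⟩ := D'.cob A (fun W => by
    rw [hfun]
    exact hloc W)
  refine ⟨pm (L.val.restrictScalars K) S, ?_, fun σ => ?_⟩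
  · rw [← pm_sm, hS1, map_zero]
  · have h1 : rs G (σ.restrictNormal L) = σ.restrictNormal G := by
      apply AlgEquiv.ext
      intro x
      apply (algebraMap G (AlgebraicClosure G)).injective
      rw [AlgEquiv.restrictNormal_commutes]
      have h2 := congrArg (algebraMap L (AlgebraicClosure G)) (rs_apply (σ.restrictNormal L) x)
      rw [AlgEquiv.restrictNormal_commutes] at h2
      exact h2
    rw [← hc', hS2, map_sub, gk_apply, h1, pm_sm, fin_ga, gO_apply]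

/-- the coboundaries are locally trivial twisted cocycles -/
theorem twc_bd (hk : Kap F G k) (Q : Pt (AlgebraicClosure G)) :
    TwC k (fun σ => gO k σ Q - Q) := by
  refine ⟨fun σ τ => ?_, ?_⟩
  · rw [gO_mul hk, gO_sub]
    abel
  · refine ⟨fun σ => Affine.Point.map (σ : AlgebraicClosure G →ₐ[G] _)
      ((DH.tr G (AlgebraicClosure G)).symm Q) - (DH.tr G (AlgebraicClosure G)).symm Q,
      S9.cob_le_shaCoc (E G) ⟨_, fun σ => rfl⟩, fun σ => ?_⟩
    rw [map_sub, DH.tr_map, AddEquiv.apply_symm_apply, gO_res hk]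

theorem TwC.sub {c c' : (AlgebraicClosure G ≃ₐ[F] AlgebraicClosure G) → Pt (AlgebraicClosure G)}
    (hc : TwC k c) (hc' : TwC k c') : TwC k (c - c') := by
  obtain ⟨C, hC, hCc⟩ := hc.sha
  obtain ⟨C', hC', hCc'⟩ := hc'.sha
  refine ⟨fun σ τ => ?_, C - C', sub_mem hC hC', fun σ => ?_⟩
  · rw [Pi.sub_apply, Pi.sub_apply, Pi.sub_apply, hc.coc, hc'.coc, gO_sub]
    abel
  · rw [Pi.sub_apply, map_sub, hCc, hCc', Pi.sub_apply]

theorem TwC.sm {c : (AlgebraicClosure G ≃ₐ[F] AlgebraicClosure G) → Pt (AlgebraicClosure G)}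
    (hc : TwC k c) (a : 𝓞 K) : TwC k (fun σ => sm (AlgebraicClosure G) a (c σ)) := by
  obtain ⟨C, hC, hCc⟩ := hc.sha
  refine ⟨fun σ τ => ?_, _, DH.smF_sha a hC, fun σ => ?_⟩
  · rw [hc.coc, map_add, gO_sm]
  · rw [DH.tr_smF, hCc]

/-- the twisted coboundaries -/
def TwB (k : Gal(G/F) → 𝓞 K)
    (c : (AlgebraicClosure G ≃ₐ[F] AlgebraicClosure G) → Pt (AlgebraicClosure G)) : Prop :=
  ∃ S : Pt (AlgebraicClosure G), ∀ σ, c σ = gO k σ S - S

/-- devissage -/
theorem twb_dev (hk : Kap F G k) {β : 𝓞 K} (hβ0 : β ≠ 0)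
    (hβ : ∀ c : (AlgebraicClosure G ≃ₐ[F] AlgebraicClosure G) → Pt (AlgebraicClosure G),
      TwC k c → (∀ σ, sm (AlgebraicClosure G) β (c σ) = 0) → TwB k c)
    {c : (AlgebraicClosure G ≃ₐ[F] AlgebraicClosure G) → Pt (AlgebraicClosure G)}
    (hc : TwC k c) (h : TwB k fun σ => sm (AlgebraicClosure G) β (c σ)) : TwB k c := by
  obtain ⟨Q, hQ⟩ := h
  obtain ⟨R₀, hR₀⟩ := DH.div_Om (F := G) hβ0 ((DH.tr G (AlgebraicClosure G)).symm Q)
  obtain ⟨R, hR⟩ : ∃ R : Pt (AlgebraicClosure G), sm (AlgebraicClosure G) β R = Q :=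
    ⟨DH.tr G (AlgebraicClosure G) R₀, by rw [← DH.tr_smF, hR₀, AddEquiv.apply_symm_apply]⟩
  have hQ' : ∀ σ, sm (AlgebraicClosure G) β (c σ) = gO k σ Q - Q := hQ
  obtain ⟨S, hS⟩ := hβ _ (hc.sub (twc_bd hk R)) (fun σ => by
    rw [Pi.sub_apply, map_sub, hQ', map_sub, ← gO_sm, hR, sub_self])
  refine ⟨S + R, fun σ => ?_⟩
  have h1 := hS σ
  rw [Pi.sub_apply, sub_eq_iff_eq_add] at h1
  rw [h1, gO_add]
  abel

/-- **The locally trivial twisted cocycles which are killed by a power of `ℓ` modulo coboundaries are coboundaries.** -/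
theorem twc_ell (h : PD ϖ ℓ q) (A : AWK F G k b ϖ ℓ Ψ) (A' : AWK F G k b (cj ϖ) ℓ Ψ)
    {c : (AlgebraicClosure G ≃ₐ[F] AlgebraicClosure G) → Pt (AlgebraicClosure G)}
    (hc : TwC k c) (hl : TwB k (ℓ • c)) : TwB k c := by
  have hcj := pd_cj h
  have hq : TwB k fun σ => sm (AlgebraicClosure G) (q : 𝓞 K) (c σ) := by
    obtain ⟨S, hS⟩ := hl
    have hS' : ∀ σ, ℓ • c σ = gO k σ S - S := hS
    have hn : ∀ (n : ℕ) (σ : AlgebraicClosure G ≃ₐ[F] AlgebraicClosure G),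
        n • gO k σ S = gO k σ (n • S) := by
      intro n σ
      rw [← sm_nat, ← gO_sm, sm_nat]
    rcases h.alt with e | e
    · refine ⟨S, fun σ => ?_⟩
      show sm (AlgebraicClosure G) (q : 𝓞 K) (c σ) = _
      rw [sm_nat, e]
      exact hS' σ
    · refine ⟨ℓ • S, fun σ => ?_⟩
      show sm (AlgebraicClosure G) (q : 𝓞 K) (c σ) = _
      rw [sm_nat, e, pow_two, mul_nsmul, hS', smul_sub, hn]
  have hA : ∀ c : (AlgebraicClosure G ≃ₐ[F] AlgebraicClosure G) → Pt (AlgebraicClosure G),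
      TwC k c → (∀ σ, sm (AlgebraicClosure G) (cj ϖ) (c σ) = 0) → TwB k c := by
    intro c hc hc2
    obtain ⟨S, -, hS⟩ := twc_cob h A hc hc2
    exact ⟨S, hS⟩
  have hB : ∀ c : (AlgebraicClosure G ≃ₐ[F] AlgebraicClosure G) → Pt (AlgebraicClosure G),
      TwC k c → (∀ σ, sm (AlgebraicClosure G) ϖ (c σ) = 0) → TwB k c := by
    intro c hc hc2
    obtain ⟨S, -, hS⟩ := twc_cob hcj A' hc (fun σ => by rw [cj_cj]; exact hc2 σ)
    exact ⟨S, hS⟩
  refine twb_dev A.kap h.prime.ne_zero hB hc ?_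
  refine twb_dev A.kap hcj.prime.ne_zero hA (hc.sm ϖ) ?_
  have h2 : (fun σ => sm (AlgebraicClosure G) (cj ϖ) (sm (AlgebraicClosure G) ϖ (c σ))) =
      fun σ => sm (AlgebraicClosure G) (q : 𝓞 K) (c σ) := by
    funext σ
    rw [smO_smO, mul_comm, pd_mul_cj h]
  rw [h2]
  exact hq

theorem twc_ell_pow (h : PD ϖ ℓ q) (A : AWK F G k b ϖ ℓ Ψ) (A' : AWK F G k b (cj ϖ) ℓ Ψ)
    (n : ℕ) {c : (AlgebraicClosure G ≃ₐ[F] AlgebraicClosure G) → Pt (AlgebraicClosure G)}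
    (hc : TwC k c) (hl : TwB k (ℓ ^ n • c)) : TwB k c := by
  induction n generalizing c with
  | zero => simpa using hl
  | succ n ih =>
    refine twc_ell h A A' hc (ih ?_ ?_)
    · have h1 : (fun σ => sm (AlgebraicClosure G) (ℓ : 𝓞 K) (c σ)) = ℓ • c := by
        funext σ
        rw [sm_nat]
        rfl
      rw [← h1]
      exact hc.sm _
    · rw [← mul_nsmul', ← pow_succ]
      exact hl

end

end Pool.Agent.Lib.MP_1a91b9_nuY.TP
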