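import Pool.Agent.Lib.MP_1a91b9_nuX.PX.ShaD
import Pool.Agent.Lib.MP_17a322_nt.VJ.MW4
import Pool.Agent.Lib.MP_1a91b9_nuY.TP.Tw

/-!
# TP: the points of the twist: finite of order prime to `ℓ`
-/

set_option autoImplicit false
set_option linter.unusedSectionVars false

namespace Pool.Agent.Lib.MP_1a91b9_nuY.TP

open NumberField IsDedekindDomain WeierstrassCurve Pool.Agent.Lib.MP_1a91b9_nuT
open Pool.Agent.Lib.MP_1a91b9_nuX Pool.Agent.Lib.MP_1a91b9_nuX.DB Pool.Agent.Lib.MP_1a91b9_nuX.DX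
open Pool.Agent.Lib.MP_1a91b9_nuW.W
open Pool.Agent.Lib.MP_1a91b9_nuY.TS
open Pool.Agent.Lib.MP_1a91b9_nuT.S9 (Pts)
open scoped Classical

variable [CD]

universe u

/-- a finitely generated abelian group which is divisible by `q` is finite of order prime to `q` -/
theorem grp_div {M : Type*} [AddCommGroup M] (hfg : AddGroup.FG M) {q : ℕ} (hq : 2 ≤ q)
    (hd : ∀ P : M, ∃ P' : M, q • P' = P) : Finite M ∧ (Nat.card M).Coprime q := by
  have h1 : Module.Finite ℤ M := Module.Finite.iff_addGroup_fg.2 hfg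
  have hin : (⊤ : Submodule ℤ M) ≤ Ideal.span {(q : ℤ)} • (⊤ : Submodule ℤ M) := by
    intro P _
    obtain ⟨P', hP'⟩ := hd P
    rw [← hP', ← natCast_zsmul]
    exact Submodule.smul_mem_smul (Ideal.mem_span_singleton_self _) Submodule.mem_top
  obtain ⟨r, hr1, hr2⟩ :=
    Submodule.exists_sub_one_mem_and_smul_eq_zero_of_fg_of_le_smul (Ideal.span {(q : ℤ)}) ⊤
      (Module.finite_def.1 h1) hin
  have hr0 : r ≠ 0 := by
    rintro rfl
    rw [zero_sub, Ideal.mem_span_singleton, dvd_neg] at hr1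
    have h2 := Int.le_of_dvd one_pos hr1
    omega
  have hfin : Finite M := Module.finite_of_fg_torsion M
    (fun P => ⟨⟨r, mem_nonZeroDivisors_of_ne_zero hr0⟩, hr2 P Submodule.mem_top⟩)
  refine ⟨hfin, ?_⟩
  by_contra hc
  obtain ⟨p, hp, h3, h4⟩ := Nat.Prime.not_coprime_iff_dvd.1 hc
  have hF : Fact p.Prime := ⟨hp⟩
  obtain ⟨R, hR⟩ := exists_prime_addOrderOf_dvd_card' (G := M) p h3
  have hR0 : R ≠ 0 := by
    rintro rfl
    rw [addOrderOf_zero] at hR
    exact hp.one_lt.ne hR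
  have hpR : p • R = 0 := by
    rw [← hR]
    exact addOrderOf_nsmul_eq_zero R
  have hqR : q • R = 0 := by
    obtain ⟨m, rfl⟩ := h4
    rw [mul_comm, mul_nsmul', hpR, smul_zero]
  have hi : Function.Injective fun P : M => q • P := Finite.injective_iff_surjective.2 hd
  apply hR0
  apply hi
  show q • R = q • (0 : M)
  rw [hqR, smul_zero]

variable [HC]

section
variable {F G : Type u} [Field F] [NumberField F] [Algebra K F] [Field G] [NumberField G]
  [Algebra K G] [Algebra F G] [IsScalarTower K F G] [IsGalois F G] {k : Gal(G/F) → 𝓞 K}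
  {b ϖ : 𝓞 K} {ℓ q : ℕ} {Ψ : Ideal (𝓞 F) → 𝓞 K}

/-- the invariant points are divisible by `cj ϖ` -/
theorem inv_div (h : PD ϖ ℓ q) (A : AWK F G k b ϖ ℓ Ψ) (P : Pt (AlgebraicClosure G))
    (hP : ∀ σ, gO k σ P = P) :
    ∃ P' : Pt (AlgebraicClosure G), (∀ σ, gO k σ P' = P') ∧
      sm (AlgebraicClosure G) (cj ϖ) P' = P := by
  obtain ⟨R₀, hR₀⟩ := DH.div_Om (F := G) (pd_cj h).prime.ne_zero
    ((DH.tr G (AlgebraicClosure G)).symm P)
  obtain ⟨Q, hQ⟩ : ∃ Q : Pt (AlgebraicClosure G), sm (AlgebraicClosure G) (cj ϖ) Q = P :=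
    ⟨DH.tr G (AlgebraicClosure G) R₀, by rw [← DH.tr_smF, hR₀, AddEquiv.apply_symm_apply]⟩
  obtain ⟨S, hS1, hS2⟩ := twc_cob h A (twc_bd A.kap Q) (fun σ => by
    rw [map_sub, ← gO_sm, hQ, hP, sub_self])
  refine ⟨Q - S, fun σ => ?_, ?_⟩
  · have h1 : gO k σ Q - Q = gO k σ S - S := hS2 σ
    rw [gO_sub]
    rw [sub_eq_sub_iff_add_eq_add] at h1 ⊢
    rw [h1]
    abel
  · rw [map_sub, hQ, hS1, sub_zero]

variable {W : WeierstrassCurve F} {C₀ : VariableChange G} (hC : C₀ • W.baseChange G = E G)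

/-- the points of `W` over the algebraic closure as points of `E` -/
noncomputable def io : Pts W (AlgebraicClosure G) ≃+ Pt (AlgebraicClosure G) :=
  (CT.tr hC (AlgebraicClosure G)).symm.trans (DH.tr G (AlgebraicClosure G))

/-- the curve `W` is the twist of `E` by `k` -/
def Lnk (k : Gal(G/F) → 𝓞 K) : Prop :=
  ∀ (σ : AlgebraicClosure G ≃ₐ[F] AlgebraicClosure G) (Q : Pts W (AlgebraicClosure G)),
    io hC (Affine.Point.map (σ : AlgebraicClosure G →ₐ[F] AlgebraicClosure G) Q) =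
      gO k σ (io hC Q)

/-- the points of `W` over `F` are divisible by `q` -/
theorem pts_div (h : PD ϖ ℓ q) (A : AWK F G k b ϖ ℓ Ψ) (A' : AWK F G k b (cj ϖ) ℓ Ψ)
    (hL : Lnk hC k) (R : Pts W F) : ∃ R' : Pts W F, q • R' = R := by
  have hFG : FiniteDimensional F G := Module.Finite.of_restrictScalars_finite ℚ F G
  have halg : Algebra.IsAlgebraic F G := Algebra.IsAlgebraic.of_finite F G
  have hcl : IsAlgClosure F (AlgebraicClosure G) :=
    IsAlgClosure.ofAlgebraic F G (AlgebraicClosure G)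
  obtain ⟨j⟩ : Nonempty (AlgebraicClosure F ≃ₐ[F] AlgebraicClosure G) :=
    ⟨IsAlgClosure.equiv F (AlgebraicClosure F) (AlgebraicClosure G)⟩
  let uF : Pts W F →+ Pts W (AlgebraicClosure G) :=
    Affine.Point.map (Algebra.ofId F (AlgebraicClosure G))
  have huF : ∀ Q, uF Q = Affine.Point.map (Algebra.ofId F (AlgebraicClosure G)) Q := fun Q => rfl
  have hinj : Function.Injective uF := Affine.Point.map_injective _
  have e6 : ∀ σ : AlgebraicClosure G ≃ₐ[F] AlgebraicClosure G,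
      (σ : AlgebraicClosure G →ₐ[F] AlgebraicClosure G).comp
        (Algebra.ofId F (AlgebraicClosure G)) = Algebra.ofId F (AlgebraicClosure G) :=
    fun σ => AlgHom.ext fun x => σ.commutes x
  obtain ⟨P1, h1, e1⟩ := inv_div h A (io hC (uF R)) (fun σ => by
    rw [← hL σ, huF, Affine.Point.map_map, e6])
  obtain ⟨P2, h2, e2⟩ := inv_div (pd_cj h) A' P1 h1
  rw [cj_cj] at e2
  obtain ⟨Q, hQdef⟩ : ∃ Q : Pts W (AlgebraicClosure G), Q = (io hC).symm P2 := ⟨_, rfl⟩
  have hQ : ∀ σ : AlgebraicClosure G ≃ₐ[F] AlgebraicClosure G,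
      Affine.Point.map (σ : AlgebraicClosure G →ₐ[F] AlgebraicClosure G) Q = Q := by
    intro σ
    apply (io hC).injective
    rw [hL, hQdef, AddEquiv.apply_symm_apply, h2]
  obtain ⟨R', hR'⟩ := S9.fixed_pt W
    (Affine.Point.map (j.symm : AlgebraicClosure G →ₐ[F] AlgebraicClosure F) Q) (fun τ => by
      rw [Affine.Point.map_map]
      conv_rhs => rw [← hQ ((j.symm.trans τ).trans j), Affine.Point.map_map]
      congr 2
      ext x
      show τ (j.symm x) = j.symm (j (τ (j.symm x)))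
      rw [j.symm_apply_apply])
  have hR'' : uF R' = Q := by
    have e3 := congrArg (Affine.Point.map
      (j : AlgebraicClosure F →ₐ[F] AlgebraicClosure G)) hR'
    rw [Affine.Point.map_map, Affine.Point.map_map] at e3
    have e4 : (j : AlgebraicClosure F →ₐ[F] AlgebraicClosure G).comp
        (j.symm : AlgebraicClosure G →ₐ[F] AlgebraicClosure F) = AlgHom.id F _ := by
      ext x
      exact j.apply_symm_apply x
    have e5 : ∀ Q : Pts W (AlgebraicClosure G),
        Affine.Point.map (AlgHom.id F (AlgebraicClosure G)) Q = Q := by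
      intro Q
      rcases Q with _ | ⟨x, y, h⟩ <;> rfl
    rw [e4, e5] at e3
    rw [← e3, huF]
    congr 1
    congr 1
    exact AlgHom.ext fun x => (j.commutes x).symm
  refine ⟨R', hinj ?_⟩
  apply (io hC).injective
  rw [map_nsmul, hR'', map_nsmul, hQdef, AddEquiv.apply_symm_apply, ← sm_nat, ← pd_mul_cj h,
    mul_comm, ← smO_smO, e2, e1]

/-- the discriminant of `W` is not zero -/
theorem isEll (hC : C₀ • W.baseChange G = E G) : W.IsElliptic := by
  refine (WeierstrassCurve.isElliptic_iff _).2 ?_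
  have h1 : (E G).Δ ≠ 0 := by
    have h27 : (E G).Δ = -16 * (4 * cA G ^ 3 + 27 * cB G ^ 2) := by
      simp [WeierstrassCurve.Δ, WeierstrassCurve.b₂, WeierstrassCurve.b₄, WeierstrassCurve.b₆,
        WeierstrassCurve.b₈, E]
      ring
    rw [h27]
    have h2 : (2 : G) ≠ 0 := two_ne
    refine mul_ne_zero ?_ dsc_ne
    intro h0
    apply pow_ne_zero 4 h2
    linear_combination -h0
  refine IsUnit.mk0 _ fun h0 => h1 ?_
  rw [← hC, WeierstrassCurve.variableChange_Δ, WeierstrassCurve.baseChange,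
    WeierstrassCurve.map_Δ, h0, map_zero, mul_zero]

/-- **The points of `W` over `F`**: finite of order prime to `ℓ`. -/
theorem top_pts (h : PD ϖ ℓ q) (A : AWK F G k b ϖ ℓ Ψ) (A' : AWK F G k b (cj ϖ) ℓ Ψ)
    (hL : Lnk hC k) :
    Finite W.toAffine.Point ∧ (Nat.card W.toAffine.Point).Coprime ℓ := by
  have hE : W.IsElliptic := isEll hC
  have hb : Affine.baseChange W F = W.toAffine := by
    show W.map (algebraMap F F) = W
    rw [Algebra.algebraMap_self]
    exact W.map_id
  have hq5 := h.q_five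
  have hdiv := pts_div hC h A A' hL
  have key : ∀ V : Affine F, V = Affine.baseChange W F → (∀ R : V.Point, ∃ R' : V.Point, q • R' = R) := by
    rintro _ rfl
    exact hdiv
  have hfg : AddGroup.FG W.toAffine.Point :=
    Pool.Agent.Lib.MP_17a322_nt.VJ.mordell_weil W
  obtain ⟨h1, h2⟩ := grp_div hfg (by omega) (key W.toAffine hb.symm)
  refine ⟨h1, Nat.Coprime.coprime_dvd_right ?_ h2⟩
  rcases h.alt with e | e
  · rw [e]
  · rw [e]
    exact dvd_pow_self ℓ two_ne_zero

end

end Pool.Agent.Lib.MP_1a91b9_nuY.TP
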